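import Mathlib

open MeasureTheory Set Topology

namespace Pool.Agent.Results.MP_78c590_co.IntermediateValues

/-- The Euclidean plane with coordinates; `volume` is Lebesgue area. -/
abbrev Plane := ℝ × ℝ

/-- Area of the triangle with vertices `p`, `q`, `r`. -/
noncomputable def triArea (p q r : Plane) : ℝ :=
  |(q.1 - p.1) * (r.2 - p.2) - (r.1 - p.1) * (q.2 - p.2)| / 2

/-- Convex figures of area one. -/
structure UnitFigure (F : Set Plane) : Prop where
  convex : Convex ℝ F
  compact : IsCompact F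
  interior_nonempty : (interior F).Nonempty
  area : volume F = 1

/-- Among any `n` points of `F` some three form a triangle of area at most `α`. -/
def HasSmall (α : ℝ) (F : Set Plane) (n : ℕ) : Prop :=
  ∀ P : Finset Plane, (P : Set Plane) ⊆ F → P.card = n →
    ∃ p ∈ P, ∃ q ∈ P, ∃ r ∈ P, p ≠ q ∧ q ≠ r ∧ p ≠ r ∧ triArea p q r ≤ α

/-- Erdős' function `S_α(F)`. -/
noncomputable def S (α : ℝ) (F : Set Plane) : ℕ :=
  sInf {n : ℕ | 0 < n ∧ HasSmall α F n}

/-- The set of all values of `S_α`. -/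
def values (α : ℝ) : Set ℕ := {n | ∃ F, UnitFigure F ∧ S α F = n}

/-- `m(α)`, the minimum of `S_α(F)` over convex figures `F` of area one (attained, see
`m_isLeast`). -/
noncomputable def m (α : ℝ) : ℕ := sInf (values α)

/-- `M(α)`, the maximum of `S_α(F)` over convex figures `F` of area one (attained for `α > 0`, see
`M_isGreatest`). -/
noncomputable def M (α : ℝ) : ℕ := sSup (values α)

/-- Auxiliary, for tuples: all triangles have area at least `t`. -/
def Big {n : ℕ} (t : ℝ) (P : Fin n → Plane) : Prop :=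
  ∀ i j l : Fin n, i ≠ j → j ≠ l → i ≠ l → t ≤ triArea (P i) (P j) (P l)

/-- Auxiliary, for tuples: all triangles have area larger than `t`. -/
def SBig {n : ℕ} (t : ℝ) (P : Fin n → Plane) : Prop :=
  ∀ i j l : Fin n, i ≠ j → j ≠ l → i ≠ l → t < triArea (P i) (P j) (P l)

lemma triArea_nonneg (p q r : Plane) : 0 ≤ triArea p q r := by
  unfold triArea; positivity

lemma triArea_smul (c : ℝ) (p q r : Plane) :
    triArea (c • p) (c • q) (c • r) = c ^ 2 * triArea p q r := by
  unfold triArea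
  have : (c • q).1 = c * q.1 := rfl
  have e : ((c • q).1 - (c • p).1) * ((c • r).2 - (c • p).2)
      - ((c • r).1 - (c • p).1) * ((c • q).2 - (c • p).2)
      = c ^ 2 * ((q.1 - p.1) * (r.2 - p.2) - (r.1 - p.1) * (q.2 - p.2)) := by
    simp only [Prod.smul_fst, Prod.smul_snd, smul_eq_mul]; ring
  rw [e, abs_mul, abs_of_nonneg (sq_nonneg c)]
  ring

lemma continuous_triArea {X : Type*} [TopologicalSpace X] {f g h : X → Plane}
    (hf : Continuous f) (hg : Continuous g) (hh : Continuous h) :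
    Continuous (fun x => triArea (f x) (g x) (h x)) := by
  unfold triArea
  fun_prop

lemma triArea_self_left (p r : Plane) : triArea p p r = 0 := by
  unfold triArea; simp

lemma Big.injective {n : ℕ} (hn : 3 ≤ n) {t : ℝ} (ht : 0 < t) {P : Fin n → Plane}
    (h : Big t P) : Function.Injective P := by
  intro i j hij
  by_contra hne
  obtain ⟨l, hl⟩ : ∃ l : Fin n, l ≠ i ∧ l ≠ j := by
    have hc : ({i, j} : Finset (Fin n)).card < (Finset.univ : Finset (Fin n)).card := by
      refine lt_of_le_of_lt Finset.card_le_two ?_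
      simp; omega
    obtain ⟨l, _, hl⟩ := Finset.exists_mem_notMem_of_card_lt_card hc
    refine ⟨l, ?_, ?_⟩
    · rintro rfl; simp at hl
    · rintro rfl; simp at hl
  have := h i j l hne (Ne.symm hl.2) (Ne.symm hl.1)
  rw [hij, triArea_self_left] at this
  linarith

lemma SBig.big {n : ℕ} {t : ℝ} {P : Fin n → Plane} (h : SBig t P) : Big t P :=
  fun i j l h1 h2 h3 => (h i j l h1 h2 h3).le

/-- points on a common level line of a nonzero functional give a degenerate triangle -/
lemma triArea_eq_zero_of_level (f : Plane →L[ℝ] ℝ) (hf : f ≠ 0) {p q r : Plane}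
    (h1 : f p = f q) (h2 : f p = f r) : triArea p q r = 0 := by
  set a := f (1, 0) with ha
  set b := f (0, 1) with hb
  have hform : ∀ x : Plane, f x = a * x.1 + b * x.2 := by
    intro x
    have : x = x.1 • ((1, 0) : Plane) + x.2 • ((0, 1) : Plane) := by
      ext <;> simp
    conv_lhs => rw [this]
    rw [map_add, map_smul, map_smul, smul_eq_mul, smul_eq_mul]
    ring
  have hab : a ≠ 0 ∨ b ≠ 0 := by
    by_contra hcon
    push Not at hcon
    apply hf
    ext x
    · simpa [ha] using hcon.1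
    · simpa [hb] using hcon.2
  have e1 : a * (q.1 - p.1) + b * (q.2 - p.2) = 0 := by
    have := h1; rw [hform, hform] at this; linarith
  have e2 : a * (r.1 - p.1) + b * (r.2 - p.2) = 0 := by
    have := h2; rw [hform, hform] at this; linarith
  have key : (q.1 - p.1) * (r.2 - p.2) - (r.1 - p.1) * (q.2 - p.2) = 0 := by
    rcases hab with h | h
    · apply mul_left_cancel₀ h
      linear_combination (r.2 - p.2) * e1 - (q.2 - p.2) * e2
    · apply mul_left_cancel₀ h
      linear_combination (q.1 - p.1) * e2 - (r.1 - p.1) * e1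
  unfold triArea
  rw [key]; simp


/-! Interpolation between nested convex bodies. -/

open Pointwise in
/-- Minkowski interpolation between `K` and `C`. -/
def mink (K C : Set Plane) (s : ℝ) : Set Plane :=
  (fun z : Plane × Plane => (1 - s) • z.1 + s • z.2) '' (K ×ˢ C)

lemma mink_convex {K C : Set Plane} (hK : Convex ℝ K) (hC : Convex ℝ C) (s : ℝ) :
    Convex ℝ (mink K C s) := by
  unfold mink
  have hl : IsLinearMap ℝ (fun z : Plane × Plane => (1 - s) • z.1 + s • z.2) := by
    constructor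
    · intro x y; simp only [Prod.fst_add, Prod.snd_add, smul_add]; abel
    · intro c x
      simp only [Prod.smul_fst, Prod.smul_snd, smul_add]
      rw [smul_comm (1 - s) c, smul_comm s c]
  exact (hK.prod hC).is_linear_image hl

lemma mink_compact {K C : Set Plane} (hK : IsCompact K) (hC : IsCompact C) (s : ℝ) :
    IsCompact (mink K C s) :=
  (hK.prod hC).image (by fun_prop)

lemma mink_mono {K C : Set Plane} (hKC : K ⊆ C) (hC : Convex ℝ C) {s s' : ℝ}
    (h0 : 0 ≤ s) (h1 : s ≤ s') : mink K C s ⊆ mink K C s' := by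
  rintro z ⟨⟨x, y⟩, ⟨hx, hy⟩, rfl⟩
  rcases h0.eq_or_lt with h | h
  · rcases (h0.trans h1).eq_or_lt with h' | h'
    · have : s = s' := by rw [← h, ← h']
      rw [← this]; exact ⟨⟨x, y⟩, ⟨hx, hy⟩, rfl⟩
    · refine ⟨⟨x, x⟩, ⟨hx, hKC hx⟩, ?_⟩
      simp only [← h]
      ext <;> simp <;> ring
  · have hs' : 0 < s' := lt_of_lt_of_le h h1
    refine ⟨⟨x, (s / s') • y + ((s' - s) / s') • x⟩, ⟨hx, ?_⟩, ?_⟩
    · apply hC hy (hKC hx) (by positivity)
      · exact div_nonneg (by linarith) hs'.le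
      · field_simp; ring
    · ext
      · simp; field_simp; ring
      · simp; field_simp; ring

lemma mink_zero {K C : Set Plane} (hC : C.Nonempty) : mink K C 0 = K := by
  unfold mink
  ext z
  constructor
  · rintro ⟨⟨x, y⟩, ⟨hx, _⟩, rfl⟩
    simpa using hx
  · intro hz
    obtain ⟨y, hy⟩ := hC
    exact ⟨⟨z, y⟩, ⟨hz, hy⟩, by simp⟩

lemma mink_one {K C : Set Plane} (hK : K.Nonempty) : mink K C 1 = C := by
  unfold mink
  ext z
  constructor
  · rintro ⟨⟨x, y⟩, ⟨_, hy⟩, rfl⟩
    simpa using hy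
  · intro hz
    obtain ⟨y, hy⟩ := hK
    exact ⟨⟨y, z⟩, ⟨hy, hz⟩, by simp⟩

lemma mink_graph_closed {K C : Set Plane} (hK : IsCompact K) (hC : IsCompact C) :
    IsClosed {w : ℝ × Plane | w.1 ∈ Icc (0:ℝ) 1 ∧ w.2 ∈ mink K C w.1} := by
  have : {w : ℝ × Plane | w.1 ∈ Icc (0:ℝ) 1 ∧ w.2 ∈ mink K C w.1}
      = (fun t : ℝ × (Plane × Plane) => (t.1, (1 - t.1) • t.2.1 + t.1 • t.2.2)) ''
        (Icc (0:ℝ) 1 ×ˢ (K ×ˢ C)) := by
    ext ⟨s, z⟩
    constructor
    · rintro ⟨hs, ⟨x, y⟩, hxy, hz⟩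
      exact ⟨(s, (x, y)), ⟨hs, hxy⟩, Prod.ext rfl hz⟩
    · rintro ⟨⟨s', x, y⟩, ⟨hs, hxy⟩, h⟩
      simp only [Prod.mk.injEq] at h
      obtain ⟨rfl, rfl⟩ := h
      exact ⟨hs, ⟨x, y⟩, hxy, rfl⟩
  rw [this]
  exact ((isCompact_Icc.prod (hK.prod hC)).image (by fun_prop)).isClosed

lemma volume_closure_le {V : Set Plane} (hV : Convex ℝ V) : volume (closure V) ≤ volume V := by
  have h1 : closure V ⊆ V ∪ frontier V := by
    intro x hx
    by_cases h : x ∈ V
    · exact Or.inl h
    · right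
      exact ⟨hx, fun hi => h (interior_subset hi)⟩
  calc volume (closure V) ≤ volume (V ∪ frontier V) := measure_mono h1
    _ ≤ volume V + volume (frontier V) := measure_union_le _ _
    _ = volume V := by rw [hV.addHaar_frontier volume, add_zero]

lemma volume_interior_eq {V : Set Plane} (hV : Convex ℝ V) : volume (interior V) = volume V := by
  apply le_antisymm (measure_mono interior_subset)
  have h1 : V ⊆ interior V ∪ frontier V := by
    intro x hx
    by_cases h : x ∈ interior V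
    · exact Or.inl h
    · right
      exact ⟨subset_closure hx, h⟩
  calc volume V ≤ volume (interior V ∪ frontier V) := measure_mono h1
    _ ≤ volume (interior V) + volume (frontier V) := measure_union_le _ _
    _ = volume (interior V) := by rw [hV.addHaar_frontier volume, add_zero]

lemma interp {K C : Set Plane} (hKc : Convex ℝ K) (hK : IsCompact K) (hKn : K.Nonempty)
    (hCc : Convex ℝ C) (hC : IsCompact C) (hKC : K ⊆ C) (hv : volume K < 1)
    (hv1 : 1 ≤ volume C) :
    ∃ G : Set Plane, Convex ℝ G ∧ IsCompact G ∧ G ⊆ C ∧ volume G ≤ 1 ∧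
      ∀ η : ENNReal, η < 1 → ∃ G' : Set Plane, Convex ℝ G' ∧ IsCompact G' ∧ K ⊆ G' ∧ G' ⊆ G ∧
        η < volume G' ∧ volume G' < 1 := by
  set T : Set ℝ := {s | s ∈ Icc (0:ℝ) 1 ∧ volume (mink K C s) < 1} with hT
  have h0T : (0:ℝ) ∈ T := by
    refine ⟨⟨le_refl _, zero_le_one⟩, ?_⟩
    rw [mink_zero (hKn.mono hKC)]; exact hv
  have hTb : BddAbove T := ⟨1, fun s hs => hs.1.2⟩
  set σ := sSup T with hσ
  have hσ0 : 0 ≤ σ := le_csSup hTb h0T
  have hσ1 : σ ≤ 1 := csSup_le ⟨0, h0T⟩ fun s hs => hs.1.2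
  have hclosed := mink_graph_closed hK hC
  -- limit from the left
  have hL : ∀ c : ENNReal, (∀ s ∈ T, volume (mink K C s) ≤ c) → volume (mink K C σ) ≤ c := by
    intro c hc
    obtain ⟨u, hu_mono, -, hu_lim, hu_mem⟩ :
        ∃ u : ℕ → ℝ, Monotone u ∧ True ∧ Filter.Tendsto u Filter.atTop (𝓝 σ) ∧ ∀ n, u n ∈ T := by
      obtain ⟨u, h1, h2, h3⟩ := exists_seq_tendsto_sSup ⟨0, h0T⟩ hTb
      exact ⟨u, h1, trivial, h2, h3⟩
    set V := ⋃ n, mink K C (u n) with hV
    have hmono : Monotone fun n => mink K C (u n) := by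
      intro a b hab
      exact mink_mono hKC hCc (hu_mem a).1.1 (hu_mono hab)
    have hVconv : Convex ℝ V := hmono.directed_le.convex_iUnion fun n => mink_convex hKc hCc _
    have hVvol : volume V ≤ c := by
      rw [hV, hmono.directed_le.measure_iUnion]
      exact iSup_le fun n => hc _ (hu_mem n)
    have hsub : mink K C σ ⊆ closure V := by
      rintro z ⟨⟨x, y⟩, ⟨hx, hy⟩, rfl⟩
      have ht : Filter.Tendsto (fun n => (1 - u n) • x + u n • y) Filter.atTop
          (𝓝 ((1 - σ) • x + σ • y)) := by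
        have hcont : Continuous fun s : ℝ => (1 - s) • x + s • y := by fun_prop
        exact (hcont.tendsto σ).comp hu_lim
      refine mem_closure_of_tendsto ht (Filter.Eventually.of_forall fun n => ?_)
      exact mem_iUnion.2 ⟨n, ⟨⟨x, y⟩, ⟨hx, hy⟩, rfl⟩⟩
    exact (measure_mono hsub).trans ((volume_closure_le hVconv).trans hVvol)
  refine ⟨mink K C σ, mink_convex hKc hCc _, mink_compact hK hC _, ?_, ?_, ?_⟩
  · have := mink_mono hKC hCc hσ0 hσ1
    rwa [mink_one hKn] at this
  · exact hL 1 fun s hs => hs.2.le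
  · intro η hη
    by_contra hcon
    have hall : ∀ s ∈ T, volume (mink K C s) ≤ η := by
      intro s hs
      by_contra hlt
      push Not at hlt
      apply hcon
      refine ⟨mink K C s, mink_convex hKc hCc _, mink_compact hK hC _, ?_, ?_, hlt, hs.2⟩
      · have := mink_mono hKC hCc (le_refl (0:ℝ)) hs.1.1
        rwa [mink_zero (hKn.mono hKC)] at this
      · exact mink_mono hKC hCc hs.1.1 (le_csSup hTb hs)
    have hσv : volume (mink K C σ) < 1 := (hL η hall).trans_lt hη
    have hσT : σ ∈ T := ⟨⟨hσ0, hσ1⟩, hσv⟩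
    have hσne : σ < 1 := by
      rcases hσ1.eq_or_lt with h | h
      · exfalso
        rw [h, mink_one hKn] at hσv
        exact absurd hσv (not_lt.2 hv1)
      · exact h
    -- sequence from the right
    set u : ℕ → ℝ := fun n => σ + (1 - σ) / ((n : ℝ) + 1) with hu
    have hupos : ∀ n, σ < u n := by
      intro n
      have : 0 < (1 - σ) / ((n : ℝ) + 1) := by
        apply div_pos (by linarith) (by positivity)
      simp only [hu]; linarith
    have hule : ∀ n, u n ≤ 1 := by
      intro n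
      have : (1 - σ) / ((n : ℝ) + 1) ≤ 1 - σ := by
        apply div_le_self (by linarith)
        have : (0:ℝ) ≤ n := Nat.cast_nonneg n
        linarith
      simp only [hu]; linarith
    have huanti : Antitone u := by
      intro a b hab
      simp only [hu]
      have hab' : (a : ℝ) ≤ b := by exact_mod_cast hab
      have : (1 - σ) / ((b : ℝ) + 1) ≤ (1 - σ) / ((a : ℝ) + 1) := by
        apply div_le_div_of_nonneg_left (by linarith) (by positivity) (by linarith)
      linarith
    have hulim : Filter.Tendsto u Filter.atTop (𝓝 σ) := by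
      have h1 : Filter.Tendsto (fun n : ℕ => (1 - σ) / ((n : ℝ) + 1)) Filter.atTop (𝓝 0) := by
        have := (tendsto_one_div_add_atTop_nhds_zero_nat (𝕜 := ℝ)).const_mul (1 - σ)
        simpa [div_eq_mul_inv] using this
      simpa [hu] using h1.const_add σ
    have hge : ∀ n, 1 ≤ volume (mink K C (u n)) := by
      intro n
      by_contra hlt
      push Not at hlt
      have : u n ∈ T := ⟨⟨hσ0.trans (hupos n).le, hule n⟩, hlt⟩
      exact absurd (le_csSup hTb this) (not_le.2 (hupos n))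
    have hanti : Antitone fun n => mink K C (u n) := by
      intro a b hab
      exact mink_mono hKC hCc (hσ0.trans (hupos b).le) (huanti hab)
    have hInter : (⋂ n, mink K C (u n)) ⊆ mink K C σ := by
      intro z hz
      have hz' : ∀ n, (u n, z) ∈ {w : ℝ × Plane | w.1 ∈ Icc (0:ℝ) 1 ∧ w.2 ∈ mink K C w.1} :=
        fun n => ⟨⟨hσ0.trans (hupos n).le, hule n⟩, mem_iInter.1 hz n⟩
      have ht : Filter.Tendsto (fun n => (u n, z)) Filter.atTop (𝓝 (σ, z)) :=
        hulim.prodMk_nhds tendsto_const_nhds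
      have := hclosed.mem_of_tendsto ht (Filter.Eventually.of_forall hz')
      exact this.2
    have hlim : 1 ≤ volume (⋂ n, mink K C (u n)) := by
      rw [hanti.directed_ge.measure_iInter
        (fun n => (mink_compact hK hC _).measurableSet.nullMeasurableSet)
        ⟨0, (mink_compact hK hC _).measure_lt_top.ne⟩]
      exact le_iInf hge
    exact absurd (hlim.trans (measure_mono hInter)) (not_le.2 hσv)

/-! The key extension lemma. -/

/-- Scaled form of the assumption that no figure has the value `n + 1`. -/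
def NoGap (α : ℝ) (n : ℕ) : Prop :=
  ∀ G : Set Plane, Convex ℝ G → IsCompact G → volume G ≠ 0 →
    (∃ Q : Fin n → Plane, (∀ j, Q j ∈ G) ∧ SBig (α * (volume G).toReal) Q) →
    ∃ P : Fin (n + 1) → Plane, (∀ i, P i ∈ G) ∧ SBig (α * (volume G).toReal) P

lemma star {α : ℝ} (hα : 0 < α) {n : ℕ} (hn : 0 < n) (hN : NoGap α n) {C : Set Plane}
    (hCc : Convex ℝ C) (hC : IsCompact C) (hv : 1 ≤ volume C) (Q : Fin n → Plane)
    (hQ : ∀ j, Q j ∈ C) (hb : Big α Q) (hlt : volume (convexHull ℝ (range Q)) < 1) :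
    ∃ P : Fin (n + 1) → Plane, (∀ i, P i ∈ C) ∧ Big α P ∧
      volume (convexHull ℝ (range P)) ≤ 1 := by
  have hKn : (convexHull ℝ (range Q)).Nonempty :=
    ⟨Q ⟨0, hn⟩, subset_convexHull ℝ _ (mem_range_self _)⟩
  obtain ⟨G, hGc, hG, hGC, hG1, hGη⟩ := interp (convex_convexHull ℝ (range Q))
    ((Set.finite_range Q).isCompact_convexHull ℝ) hKn hCc hC
    (convexHull_min (by rintro _ ⟨j, rfl⟩; exact hQ j) hCc) hlt hv
  have hstep : ∀ N : ℕ, ∃ P : Fin (n + 1) → Plane, (∀ i, P i ∈ G) ∧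
      SBig (α * (1 - 1 / ((N : ℝ) + 1))) P := by
    intro N
    have hNpos : (0:ℝ) < 1 / ((N : ℝ) + 1) := by positivity
    have hη : ENNReal.ofReal (1 - 1 / ((N : ℝ) + 1)) < 1 := by
      rw [← ENNReal.ofReal_one]
      exact ENNReal.ofReal_lt_ofReal_iff_of_nonneg (by
        have : 1 / ((N : ℝ) + 1) ≤ 1 := by
          rw [div_le_one (by positivity)]
          have : (0:ℝ) ≤ N := Nat.cast_nonneg N
          linarith
        linarith) |>.2 (by linarith)
    obtain ⟨G', hG'c, hG', hKG', hG'G, h1, h2⟩ := hGη _ hη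
    have hfin : volume G' ≠ ⊤ := hG'.measure_lt_top.ne
    have hr1 : 1 - 1 / ((N : ℝ) + 1) < (volume G').toReal := by
      rcases le_or_gt (volume G').toReal (1 - 1 / ((N : ℝ) + 1)) with h | h
      · exfalso
        have := ENNReal.ofReal_le_ofReal h
        rw [ENNReal.ofReal_toReal hfin] at this
        exact absurd h1 (not_lt.2 this)
      · exact h
    have hr2 : (volume G').toReal < 1 := by
      have := (ENNReal.toReal_lt_toReal hfin ENNReal.one_ne_top).2 h2
      simpa using this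
    have hQ' : ∃ Q : Fin n → Plane, (∀ j, Q j ∈ G') ∧ SBig (α * (volume G').toReal) Q := by
      refine ⟨Q, fun j => hKG' (subset_convexHull ℝ _ (mem_range_self j)), ?_⟩
      intro i j l hij hjl hil
      have := hb i j l hij hjl hil
      nlinarith
    obtain ⟨P, hP, hPb⟩ := hN G' hG'c hG' (ne_bot_of_gt h1) hQ'
    refine ⟨P, fun i => hG'G (hP i), fun i j l hij hjl hil => ?_⟩
    have := hPb i j l hij hjl hil
    nlinarith
  choose P hPG hPb using hstep
  have hcomp : IsCompact (Set.pi (univ : Set (Fin (n + 1))) fun _ => G) :=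
    isCompact_univ_pi fun _ => hG
  obtain ⟨R, hR, φ, hφ, hlim⟩ := hcomp.tendsto_subseq (x := P) fun N i _ => hPG N i
  have hRG : ∀ i, R i ∈ G := fun i => hR i (mem_univ i)
  refine ⟨R, fun i => hGC (hRG i), ?_, ?_⟩
  · intro i j l hij hjl hil
    have hc : Continuous fun X : Fin (n + 1) → Plane => triArea (X i) (X j) (X l) :=
      continuous_triArea (continuous_apply i) (continuous_apply j) (continuous_apply l)
    have h1 : Filter.Tendsto (fun N => triArea (P (φ N) i) (P (φ N) j) (P (φ N) l)) Filter.atTop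
        (𝓝 (triArea (R i) (R j) (R l))) := (hc.tendsto R).comp hlim
    have h2 : Filter.Tendsto (fun N => α * (1 - 1 / (((φ N : ℕ) : ℝ) + 1))) Filter.atTop
        (𝓝 (α * (1 - 0))) := by
      have h3 : Filter.Tendsto (fun N : ℕ => α * (1 - 1 / ((N : ℝ) + 1))) Filter.atTop
          (𝓝 (α * (1 - 0))) :=
        (tendsto_const_nhds.sub (tendsto_one_div_add_atTop_nhds_zero_nat (𝕜 := ℝ))).const_mul α
      exact h3.comp hφ.tendsto_atTop
    have := le_of_tendsto_of_tendsto' h2 h1 fun N => (hPb (φ N) i j l hij hjl hil).le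
    simpa using this
  · exact (measure_mono (convexHull_min (by rintro _ ⟨j, rfl⟩; exact hRG j) hGc)).trans hG1

/-! Lower semicontinuity of the hull area. -/

lemma mem_hull_of_ball {n : ℕ} {P P' : Fin n → Plane} {δ : ℝ} (hδ : 0 ≤ δ)
    (hd : ∀ i, dist (P i) (P' i) ≤ δ) {x : Plane}
    (hx : Metric.closedBall x δ ⊆ convexHull ℝ (range P)) :
    x ∈ convexHull ℝ (range P') := by
  by_contra hcon
  obtain ⟨f, u, hfu, hfb⟩ := geometric_hahn_banach_point_closed (convex_convexHull ℝ (range P'))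
    ((Set.finite_range P').isClosed_convexHull ℝ) hcon
  -- every point of the ball is close to the second hull
  have hnear : ∀ z ∈ convexHull ℝ (range P), ∃ z' ∈ convexHull ℝ (range P'), dist z z' ≤ δ := by
    intro z hz
    have hsub : convexHull ℝ (range P) ⊆ {z | ∃ z' ∈ convexHull ℝ (range P'), dist z z' ≤ δ} := by
      apply convexHull_min
      · rintro _ ⟨i, rfl⟩
        exact ⟨P' i, subset_convexHull ℝ _ (mem_range_self i), hd i⟩
      · rintro a ⟨a', ha', hda⟩ b ⟨b', hb', hdb⟩ s t hs ht hst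
        refine ⟨s • a' + t • b', convex_convexHull ℝ _ ha' hb' hs ht hst, ?_⟩
        rw [dist_eq_norm] at *
        have : s • a + t • b - (s • a' + t • b') = s • (a - a') + t • (b - b') := by
          simp only [smul_sub]; abel
        rw [this]
        calc ‖s • (a - a') + t • (b - b')‖ ≤ ‖s • (a - a')‖ + ‖t • (b - b')‖ := norm_add_le _ _
          _ = s * ‖a - a'‖ + t * ‖b - b'‖ := by
              rw [norm_smul, norm_smul, Real.norm_of_nonneg hs, Real.norm_of_nonneg ht]
          _ ≤ s * δ + t * δ := by gcongr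
          _ = δ := by rw [← add_mul, hst, one_mul]
    exact hsub hz
  have hne : (Metric.closedBall x δ).Nonempty := ⟨x, Metric.mem_closedBall_self hδ⟩
  obtain ⟨w, hw, hmin⟩ := (isCompact_closedBall x δ).exists_isMinOn hne f.continuous.continuousOn
  obtain ⟨w', hw', hdist⟩ := hnear w (hx hw)
  have h1 : w - w' + x ∈ Metric.closedBall x δ := by
    rw [Metric.mem_closedBall, dist_eq_norm]
    simpa [dist_eq_norm] using hdist
  have h2 := hmin h1
  simp only [mem_ofPred_eq] at h2
  have h3 := hfb w' hw'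
  rw [map_add, map_sub] at h2
  linarith

lemma isClosed_hull_le {n : ℕ} (c : ENNReal) :
    IsClosed {P : Fin n → Plane | volume (convexHull ℝ (range P)) ≤ c} := by
  rw [← isSeqClosed_iff_isClosed]
  intro u P hu hlim
  simp only [mem_ofPred_eq] at hu ⊢
  rw [← volume_interior_eq (convex_convexHull ℝ (range P))]
  set I : ℕ → Set Plane := fun N => {x | Metric.closedBall x (1 / ((N : ℝ) + 1)) ⊆
    convexHull ℝ (range P)} with hI
  have hmono : Monotone I := by
    intro a b hab x hx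
    simp only [hI, mem_ofPred_eq] at hx ⊢
    refine (Metric.closedBall_subset_closedBall ?_).trans hx
    have hab' : (a : ℝ) ≤ b := by exact_mod_cast hab
    exact one_div_le_one_div_of_le (by positivity) (by linarith)
  have hsub : interior (convexHull ℝ (range P)) ⊆ ⋃ N, I N := by
    intro x hx
    rw [mem_interior_iff_mem_nhds, Metric.nhds_basis_closedBall.mem_iff] at hx
    obtain ⟨ε, hε, hxε⟩ := hx
    obtain ⟨N, hN⟩ := exists_nat_one_div_lt hε
    exact mem_iUnion.2 ⟨N, (Metric.closedBall_subset_closedBall hN.le).trans hxε⟩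
  have hIN : ∀ N, volume (I N) ≤ c := by
    intro N
    have hev : ∀ᶠ k in Filter.atTop, ∀ i, dist (P i) (u k i) ≤ 1 / ((N : ℝ) + 1) := by
      have h1 := (Metric.tendsto_nhds.1 hlim) (1 / ((N : ℝ) + 1)) (by positivity)
      filter_upwards [h1] with k hk i
      rw [dist_comm]
      exact (dist_le_pi_dist (u k) P i).trans hk.le
    obtain ⟨k, hk⟩ := hev.exists
    have : I N ⊆ convexHull ℝ (range (u k)) := fun x hx =>
      mem_hull_of_ball (by positivity) hk hx
    exact (measure_mono this).trans (hu k)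
  calc volume (interior (convexHull ℝ (range P))) ≤ volume (⋃ N, I N) := measure_mono hsub
    _ = ⨆ N, volume (I N) := hmono.directed_le.measure_iUnion
    _ ≤ c := iSup_le hIN

/-! Triangles and areas. -/

lemma volume_stdTriangle :
    volume (regionBetween (fun _ : ℝ => (0:ℝ)) (fun u => 1 - u) (Ioc 0 1)) =
      ENNReal.ofReal (1 / 2) := by
  have h1 : IntegrableOn (fun _ : ℝ => (0:ℝ)) (Ioc (0:ℝ) 1) := by simp
  have h2 : IntegrableOn (fun u : ℝ => 1 - u) (Ioc (0:ℝ) 1) :=
    (by fun_prop : Continuous fun u : ℝ => 1 - u).integrableOn_Ioc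
  have := volume_regionBetween_eq_integral (μ := (volume : Measure ℝ)) h1 h2 measurableSet_Ioc
    (fun x hx => by simpa using hx.2)
  rw [Measure.volume_eq_prod, this]
  congr 1
  have e : (∫ y in Ioc (0:ℝ) 1, ((fun u : ℝ => 1 - u) - fun _ : ℝ => (0:ℝ)) y)
      = ∫ y in (0:ℝ)..1, (1 - y) := by
    rw [intervalIntegral.integral_of_le zero_le_one]
    simp
  rw [e, intervalIntegral.integral_sub (by simp) (by simp)]
  simp
  norm_num

lemma triArea_le_volume (p q r : Plane) :
    ENNReal.ofReal (triArea p q r) ≤ volume (convexHull ℝ {p, q, r}) := by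
  set L : Plane →ₗ[ℝ] Plane := Matrix.toLin (Module.Basis.finTwoProd ℝ) (Module.Basis.finTwoProd ℝ)
    !![q.1 - p.1, r.1 - p.1; q.2 - p.2, r.2 - p.2] with hL
  have hLapp : ∀ x : Plane, L x = ((q.1 - p.1) * x.1 + (r.1 - p.1) * x.2,
      (q.2 - p.2) * x.1 + (r.2 - p.2) * x.2) := fun x => Matrix.toLin_finTwoProd_apply _ _ _ _ x
  have hdet : LinearMap.det L = (q.1 - p.1) * (r.2 - p.2) - (r.1 - p.1) * (q.2 - p.2) := by
    rw [hL, LinearMap.det_toLin, Matrix.det_fin_two_of]
  set D := regionBetween (fun _ : ℝ => (0:ℝ)) (fun u => 1 - u) (Ioc 0 1) with hD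
  have himg : volume (L '' D) = ENNReal.ofReal (triArea p q r) := by
    rw [Measure.addHaar_image_linearMap, hdet, hD, volume_stdTriangle,
      ← ENNReal.ofReal_mul (abs_nonneg _)]
    congr 1
    unfold triArea; ring
  have htr : volume ((fun x => p + x) '' (L '' D)) = volume (L '' D) := by
    rw [image_add_left, measure_preimage_add]
  rw [← himg, ← htr]
  apply measure_mono
  rintro _ ⟨_, ⟨x, hx, rfl⟩, rfl⟩
  obtain ⟨hx1, hx2⟩ := hx
  simp only [mem_Ioo] at hx2
  have h1 : p ∈ convexHull ℝ ({p, q, r} : Set Plane) := subset_convexHull ℝ _ (by simp)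
  have h2 : q ∈ convexHull ℝ ({p, q, r} : Set Plane) := subset_convexHull ℝ _ (by simp)
  have h3 : r ∈ convexHull ℝ ({p, q, r} : Set Plane) := subset_convexHull ℝ _ (by simp)
  have hc := convex_convexHull ℝ ({p, q, r} : Set Plane)
  have key : p + L x = (1 - x.1 - x.2) • p + x.1 • q + x.2 • r := by
    rw [hLapp]
    ext
    · simp; ring
    · simp; ring
  show p + L x ∈ _
  rw [key]
  have h4 := hc.sum_mem (t := (Finset.univ : Finset (Fin 3)))
    (w := ![1 - x.1 - x.2, x.1, x.2]) (z := ![p, q, r])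
    (by
      intro i _
      fin_cases i
      · simp; linarith
      · simpa using hx1.1.le
      · simpa using hx2.1.le)
    (by simp only [Fin.sum_univ_three]; simp; ring)
    (by
      intro i _
      fin_cases i
      · simpa using h1
      · simpa using h2
      · simpa using h3)
  simpa [Fin.sum_univ_three] using h4

lemma interior_hull_nonempty {n : ℕ} (hn : 3 ≤ n) {t : ℝ} (ht : 0 < t) {P : Fin n → Plane}
    (h : Big t P) : (interior (convexHull ℝ (range P))).Nonempty := by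
  have h0 := h ⟨0, by omega⟩ ⟨1, by omega⟩ ⟨2, by omega⟩ (by simp [Fin.ext_iff])
    (by simp [Fin.ext_iff]) (by simp [Fin.ext_iff])
  have h1 := triArea_le_volume (P ⟨0, by omega⟩) (P ⟨1, by omega⟩) (P ⟨2, by omega⟩)
  have h2 : convexHull ℝ {P ⟨0, by omega⟩, P ⟨1, by omega⟩, P ⟨2, by omega⟩} ⊆
      convexHull ℝ (range P) := by
    apply convexHull_mono
    rintro x (rfl | rfl | rfl) <;> exact mem_range_self _
  have h3 : 0 < volume (convexHull ℝ (range P)) := by
    refine lt_of_lt_of_le ?_ (h1.trans (measure_mono h2))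
    rw [ENNReal.ofReal_pos]; linarith
  rw [← volume_interior_eq (convex_convexHull ℝ _)] at h3
  exact nonempty_of_measure_ne_zero h3.ne'

lemma hull_strict {n : ℕ} {P : Fin (n + 1) → Plane}
    (hint : (interior (convexHull ℝ (range P))).Nonempty)
    (hv : volume (convexHull ℝ (range P)) ≤ 1) (i0 : Fin (n + 1))
    (hnot : P i0 ∉ convexHull ℝ (range fun j => P (i0.succAbove j))) :
    volume (convexHull ℝ (range fun j => P (i0.succAbove j))) < 1 := by
  set K := convexHull ℝ (range fun j => P (i0.succAbove j)) with hK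
  set L := convexHull ℝ (range P) with hL
  have hKL : K ⊆ L := convexHull_mono (by rintro _ ⟨j, rfl⟩; exact mem_range_self _)
  have hKcomp : IsCompact K := (Set.finite_range _).isCompact_convexHull ℝ
  have hp : P i0 ∈ closure (interior L) := by
    rw [(convex_convexHull ℝ _).closure_interior_eq_closure_of_nonempty_interior hint]
    exact subset_closure (subset_convexHull ℝ _ (mem_range_self _))
  have hopen : IsOpen (Kᶜ) := hKcomp.isClosed.isOpen_compl
  obtain ⟨y, hy1, hy2⟩ := mem_closure_iff.1 hp Kᶜ hopen hnot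
  have hpos : 0 < volume (Kᶜ ∩ interior L) :=
    (hopen.inter isOpen_interior).measure_pos volume ⟨y, hy1, hy2⟩
  have hdisj : Disjoint K (Kᶜ ∩ interior L) :=
    disjoint_left.2 fun x hx hx' => hx'.1 hx
  have hsum : volume K + volume (Kᶜ ∩ interior L) ≤ 1 := by
    rw [← measure_union hdisj (hopen.inter isOpen_interior).measurableSet]
    exact (measure_mono (union_subset hKL fun x hx => interior_subset hx.2)).trans hv
  have hfin : volume K ≠ ⊤ := hKcomp.measure_lt_top.ne
  calc volume K < volume K + volume (Kᶜ ∩ interior L) :=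
        ENNReal.lt_add_right hfin hpos.ne'
    _ ≤ 1 := hsum

/-! Sweeping a convex body by parallel lines. -/

/-- configurations of `n + 1` points in `W` with all triangles at least `α` and hull area at most
one -/
def Conf (α : ℝ) (n : ℕ) (W : Set Plane) : Set (Fin (n + 1) → Plane) :=
  {P | (∀ i, P i ∈ W) ∧ Big α P ∧ volume (convexHull ℝ (range P)) ≤ 1}

lemma Conf.mono {α : ℝ} {n : ℕ} {W W' : Set Plane} (h : W ⊆ W') : Conf α n W ⊆ Conf α n W' :=
  fun _ hP => ⟨fun i => h (hP.1 i), hP.2.1, hP.2.2⟩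

lemma isClosed_big {n : ℕ} (α : ℝ) : IsClosed {P : Fin n → Plane | Big α P} := by
  have : {P : Fin n → Plane | Big α P} = ⋂ (i : Fin n) (j : Fin n) (l : Fin n)
      (_ : i ≠ j) (_ : j ≠ l) (_ : i ≠ l), {P | α ≤ triArea (P i) (P j) (P l)} := by
    ext P; simp [Big]
  rw [this]
  refine isClosed_iInter fun i => isClosed_iInter fun j => isClosed_iInter fun l =>
    isClosed_iInter fun _ => isClosed_iInter fun _ => isClosed_iInter fun _ => ?_
  exact isClosed_le continuous_const
    (continuous_triArea (continuous_apply i) (continuous_apply j) (continuous_apply l))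

lemma isCompact_conf {α : ℝ} {n : ℕ} {W : Set Plane} (hW : IsCompact W) :
    IsCompact (Conf α n W) := by
  have : Conf α n W = (Set.pi (univ : Set (Fin (n + 1))) fun _ => W) ∩
      ({P | Big α P} ∩ {P | volume (convexHull ℝ (range P)) ≤ 1}) := by
    ext P; simp [Conf]
  rw [this]
  exact (isCompact_univ_pi fun _ => hW).inter_right ((isClosed_big α).inter (isClosed_hull_le 1))

lemma exists_bound {n : ℕ} (c t : ℝ) (hct : c < t) (s : Finset (Fin n)) (g : Fin n → ℝ)
    (h : ∀ i ∈ s, g i < t) : ∃ c', c ≤ c' ∧ c' < t ∧ ∀ i ∈ s, g i ≤ c' := by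
  classical
  set T : Finset ℝ := insert c (s.image g) with hT
  have hne : T.Nonempty := ⟨c, by simp [hT]⟩
  have hall : ∀ x ∈ T, x < t := by
    intro x hx
    rw [hT, Finset.mem_insert, Finset.mem_image] at hx
    rcases hx with rfl | ⟨i, hi, rfl⟩
    · exact hct
    · exact h i hi
  refine ⟨T.max' hne, T.le_max' _ (by simp [hT]), hall _ (T.max'_mem hne),
    fun i hi => T.le_max' _ ?_⟩
  rw [hT]; exact Finset.mem_insert_of_mem (Finset.mem_image_of_mem _ hi)

lemma halfspace_convex (f : Plane →L[ℝ] ℝ) (c : ℝ) : Convex ℝ {x : Plane | f x ≤ c} :=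
  convex_halfSpace_le f.toLinearMap.isLinear c

lemma halfspace_closed (f : Plane →L[ℝ] ℝ) (c : ℝ) : IsClosed {x : Plane | f x ≤ c} :=
  isClosed_le f.continuous continuous_const

lemma sweep_case1 {α : ℝ} (hα : 0 < α) {n : ℕ} (hn : 2 ≤ n) (hN : NoGap α n) {W : Set Plane}
    (hWc : Convex ℝ W) (hW : IsCompact W) (f : Plane →L[ℝ] ℝ) (c : ℝ)
    (hvol : 1 ≤ volume (W ∩ {x | f x ≤ c})) {P : Fin (n + 1) → Plane} (hP : P ∈ Conf α n W)
    (i0 : Fin (n + 1)) (hct : c < f (P i0)) (hlt : ∀ i, i ≠ i0 → f (P i) < f (P i0))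
    (hmin : ∀ P' ∈ Conf α n W, ∃ i, f (P i0) ≤ f (P' i)) : False := by
  obtain ⟨c', h1, h2, h3⟩ := exists_bound c (f (P i0)) hct (Finset.univ.filter (· ≠ i0))
    (fun i => f (P i)) (fun i hi => hlt i (by simpa using hi))
  have hCc : Convex ℝ (W ∩ {x | f x ≤ c'}) := hWc.inter (halfspace_convex f c')
  have hC : IsCompact (W ∩ {x | f x ≤ c'}) := hW.inter_right (halfspace_closed f c')
  have hv : 1 ≤ volume (W ∩ {x | f x ≤ c'}) :=
    hvol.trans (measure_mono (inter_subset_inter_right _ fun x (hx : f x ≤ c) => hx.trans h1))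
  have hQ : ∀ j, P (i0.succAbove j) ∈ W ∩ {x | f x ≤ c'} := fun j =>
    ⟨hP.1 _, h3 _ (by simp [Fin.succAbove_ne])⟩
  have hb : Big α fun j => P (i0.succAbove j) := by
    intro i j l hij hjl hil
    exact hP.2.1 _ _ _ (by simpa using hij) (by simpa using hjl) (by simpa using hil)
  have hnot : P i0 ∉ convexHull ℝ (range fun j => P (i0.succAbove j)) := by
    intro hmem
    have : convexHull ℝ (range fun j => P (i0.succAbove j)) ⊆ {x | f x ≤ c'} :=
      convexHull_min (by rintro _ ⟨j, rfl⟩; exact (hQ j).2) (halfspace_convex f c')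
    exact absurd (this hmem) (not_le.2 h2)
  have hlt1 := hull_strict (interior_hull_nonempty (by omega) hα hP.2.1) hP.2.2 i0 hnot
  obtain ⟨P', hP'1, hP'2, hP'3⟩ := star hα (by omega) hN hCc hC hv _ hQ hb hlt1
  obtain ⟨i, hi⟩ := hmin P' ⟨fun i => (hP'1 i).1, hP'2, hP'3⟩
  exact absurd ((hi.trans (hP'1 i).2)) (not_le.2 h2)

lemma sweep_main {α : ℝ} (hα : 0 < α) {n : ℕ} (hn : 2 ≤ n) (hN : NoGap α n) {W : Set Plane}
    (hWc : Convex ℝ W) (hW : IsCompact W) (f : Plane →L[ℝ] ℝ) (hf : f ≠ 0) (c : ℝ)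
    (hvol : 1 ≤ volume (W ∩ {x | f x ≤ c})) (hne : (Conf α n W).Nonempty)
    (hemp : ¬ (Conf α n (W ∩ {x | f x ≤ c})).Nonempty) : False := by
  have hgc : Continuous fun P : Fin (n + 1) → Plane =>
      Finset.univ.sup' Finset.univ_nonempty fun i => f (P i) := by
    apply Continuous.finset_sup'_apply
    intro i _
    exact f.continuous.comp (continuous_apply i)
  obtain ⟨P, hP, hPmin⟩ := (isCompact_conf hW).exists_isMinOn hne hgc.continuousOn
  obtain ⟨i0, -, hi0⟩ := Finset.exists_mem_eq_sup' Finset.univ_nonempty fun i => f (P i)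
  have hle : ∀ i, f (P i) ≤ f (P i0) := fun i => by
    rw [← hi0]; exact Finset.le_sup' (fun i => f (P i)) (Finset.mem_univ i)
  have hmin : ∀ P' ∈ Conf α n W, ∃ i, f (P i0) ≤ f (P' i) := by
    intro P' hP'
    obtain ⟨i, -, hi⟩ := Finset.exists_mem_eq_sup' Finset.univ_nonempty fun i => f (P' i)
    refine ⟨i, ?_⟩
    have := hPmin hP'
    simp only [mem_ofPred_eq] at this
    rw [hi0, hi] at this
    exact this
  have hct : c < f (P i0) := by
    by_contra hcon
    push Not at hcon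
    exact hemp ⟨P, fun i => ⟨hP.1 i, (hle i).trans hcon⟩, hP.2.1, hP.2.2⟩
  by_cases hcase : ∀ i, i ≠ i0 → f (P i) < f (P i0)
  · exact sweep_case1 hα hn hN hWc hW f c hvol hP i0 hct hcase hmin
  push Not at hcase
  obtain ⟨i1, hi1, hi1'⟩ := hcase
  have hi1e : f (P i1) = f (P i0) := le_antisymm (hle i1) hi1'
  have hoth : ∀ i ∈ (Finset.univ.filter fun i => i ≠ i0 ∧ i ≠ i1 : Finset (Fin (n + 1))),
      f (P i) < f (P i0) := by
    intro i hi
    simp only [Finset.mem_filter, Finset.mem_univ, true_and] at hi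
    refine lt_of_le_of_ne (hle i) fun heq => ?_
    have h0 := triArea_eq_zero_of_level f hf (p := P i0) (q := P i1) (r := P i) hi1e.symm heq.symm
    have h1 := hP.2.1 i0 i1 i (Ne.symm hi1) (Ne.symm hi.2) (Ne.symm hi.1)
    rw [h0] at h1
    linarith
  obtain ⟨c', h1, h2, h3⟩ := exists_bound c (f (P i0)) hct _ _ hoth
  set C := W ∩ {x | f x ≤ c'} with hCdef
  have hCc : Convex ℝ C := hWc.inter (halfspace_convex f c')
  have hC : IsCompact C := hW.inter_right (halfspace_closed f c')
  have hvC : 1 ≤ volume C :=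
    hvol.trans (measure_mono (inter_subset_inter_right _ fun x (hx : f x ≤ c) => hx.trans h1))
  have hCne : C.Nonempty := by
    by_contra h
    rw [not_nonempty_iff_eq_empty] at h
    rw [h] at hvC; simp at hvC
  set D := convexHull ℝ (insert (P i1) C) with hDdef
  have hDc : Convex ℝ D := convex_convexHull ℝ _
  have hDeq : D = (fun w : ℝ × Plane => (1 - w.1) • (P i1) + w.1 • w.2) '' (Icc (0:ℝ) 1 ×ˢ C) := by
    rw [hDdef, convexHull_insert hCne, hCc.convexHull_eq, convexJoin_singleton_left]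
    ext x
    constructor
    · intro hx
      simp only [mem_iUnion] at hx
      obtain ⟨y, hy, hx⟩ := hx
      rw [segment_eq_image] at hx
      obtain ⟨s, hs, rfl⟩ := hx
      exact ⟨(s, y), ⟨hs, hy⟩, rfl⟩
    · rintro ⟨⟨s, y⟩, ⟨hs, hy⟩, rfl⟩
      simp only [mem_iUnion]
      refine ⟨y, hy, ?_⟩
      rw [segment_eq_image]
      exact ⟨s, hs, rfl⟩
  have hD : IsCompact D := by
    rw [hDeq]
    exact (isCompact_Icc.prod hC).image (by fun_prop)
  have hCD : C ⊆ D := (subset_insert _ _).trans (subset_convexHull ℝ _)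
  have hPD : P i1 ∈ D := subset_convexHull ℝ _ (mem_insert _ _)
  have hDW : D ⊆ W := convexHull_min
    (insert_subset (hP.1 i1) inter_subset_left) hWc
  have hDtop : ∀ x ∈ D, f x ≤ f (P i0) ∧ (f x = f (P i0) → x = P i1) := by
    intro x hx
    rw [hDeq] at hx
    obtain ⟨⟨s, y⟩, ⟨hs, hy⟩, rfl⟩ := hx
    simp only [map_add, map_smul, smul_eq_mul, hi1e]
    have hy' : f y ≤ c' := hy.2
    have hs0 := hs.1
    have hs1 := hs.2
    simp only at hs0 hs1
    constructor
    · nlinarith
    · intro h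
      have : s = 0 := by
        by_contra hs'
        have : 0 < s := lt_of_le_of_ne hs0 (Ne.symm hs')
        nlinarith
      simp [this]
  have hinj : Function.Injective P := hP.2.1.injective (by omega) hα
  have hQ : ∀ j, P (i0.succAbove j) ∈ D := by
    intro j
    by_cases hj : i0.succAbove j = i1
    · rw [hj]; exact hPD
    · exact hCD ⟨hP.1 _, h3 _ (by simp [Fin.succAbove_ne, hj])⟩
  have hb : Big α fun j => P (i0.succAbove j) := by
    intro i j l hij hjl hil
    exact hP.2.1 _ _ _ (by simpa using hij) (by simpa using hjl) (by simpa using hil)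
  have hnot : P i0 ∉ convexHull ℝ (range fun j => P (i0.succAbove j)) := by
    intro hmem
    have : convexHull ℝ (range fun j => P (i0.succAbove j)) ⊆ D :=
      convexHull_min (by rintro _ ⟨j, rfl⟩; exact hQ j) hDc
    exact hi1 (hinj ((hDtop _ (this hmem)).2 rfl)).symm
  have hlt1 := hull_strict (interior_hull_nonempty (by omega) hα hP.2.1) hP.2.2 i0 hnot
  obtain ⟨P', hP'1, hP'2, hP'3⟩ := star hα (by omega) hN hDc hD
    (hvC.trans (measure_mono hCD)) _ hQ hb hlt1
  have hP'W : P' ∈ Conf α n W := ⟨fun i => hDW (hP'1 i), hP'2, hP'3⟩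
  have hinj' : Function.Injective P' := hP'2.injective (by omega) hα
  obtain ⟨j0, hj0⟩ := hmin P' hP'W
  have hj0e : f (P' j0) = f (P i0) := le_antisymm (hDtop _ (hP'1 j0)).1 hj0
  have hj0p : P' j0 = P i1 := (hDtop _ (hP'1 j0)).2 hj0e
  refine sweep_case1 hα hn hN hWc hW f c hvol hP'W j0 (by rw [hj0e]; exact hct) ?_ ?_
  · intro i hi
    rw [hj0e]
    refine lt_of_le_of_ne (hDtop _ (hP'1 i)).1 fun heq => hi (hinj' ?_)
    rw [(hDtop _ (hP'1 i)).2 heq, hj0p]
  · intro P'' hP''
    rw [hj0e]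
    exact hmin P'' hP''

/-! Peeling off half-planes. -/

lemma extract {α : ℝ} (hα : 0 < α) {n : ℕ} (hn : 2 ≤ n) (hN : NoGap α n) {F1 : Set Plane}
    (hF1 : UnitFigure F1) (hno : ¬ ∃ P : Fin (n + 1) → Plane, (∀ i, P i ∈ F1) ∧ Big α P)
    (P2 : Fin (n + 1) → Plane) (hP2b : Big α P2)
    (hP2v : volume (convexHull ℝ (range P2)) ≤ 1) : False := by
  classical
  have hbdd : Bornology.IsBounded (F1 ∪ range P2) :=
    hF1.compact.isBounded.union (Set.finite_range P2).isBounded
  obtain ⟨R, hR⟩ := hbdd.subset_closedBall 0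
  set Z : Set Plane := Metric.closedBall 0 R with hZ
  have hZc : Convex ℝ Z := convex_closedBall _ _
  have hZk : IsCompact Z := isCompact_closedBall _ _
  have hF1Z : F1 ⊆ Z := subset_union_left.trans hR
  have hP2Z : P2 ∈ Conf α n Z :=
    ⟨fun i => hR (Or.inr (mem_range_self i)), hP2b, hP2v⟩
  have hsep : ∀ P ∈ Conf α n Z, ∃ (f : Plane →L[ℝ] ℝ) (u : ℝ), (∀ a ∈ F1, f a < u) ∧
      ∃ i, u < f (P i) := by
    intro P hP
    have : ∃ i, P i ∉ F1 := by
      by_contra hcon
      push Not at hcon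
      exact hno ⟨P, hcon, hP.2.1⟩
    obtain ⟨i, hi⟩ := this
    obtain ⟨f, u, h1, h2⟩ := geometric_hahn_banach_closed_point hF1.convex
      hF1.compact.isClosed hi
    exact ⟨f, u, h1, i, h2⟩
  choose! f u hfu hfi using hsep
  set U : (Fin (n + 1) → Plane) → Set (Fin (n + 1) → Plane) :=
    fun P => {P' | ∃ i, u P < f P (P' i)} with hU
  have hUo : ∀ P, IsOpen (U P) := by
    intro P
    have : U P = ⋃ i, {P' : Fin (n + 1) → Plane | u P < f P (P' i)} := by
      ext P'; simp [hU]
    rw [this]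
    exact isOpen_iUnion fun i => isOpen_lt continuous_const
      ((f P).continuous.comp (continuous_apply i))
  obtain ⟨t, htZ, htcov⟩ := (isCompact_conf (α := α) (n := n) hZk).elim_nhds_subcover U
    (fun P hP => (hUo P).mem_nhds (hfi P hP))
  set Wf : Finset (Fin (n + 1) → Plane) → Set Plane :=
    fun s => Z ∩ ⋂ P ∈ s, {x | f P x ≤ u P} with hWf
  have hWc : ∀ s, Convex ℝ (Wf s) := fun s =>
    hZc.inter (convex_iInter₂ fun P _ => halfspace_convex _ _)
  have hWk : ∀ s, IsCompact (Wf s) := fun s =>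
    hZk.inter_right (isClosed_biInter fun P _ => halfspace_closed _ _)
  have hind : ∀ s : Finset (Fin (n + 1) → Plane), s ⊆ t → (Conf α n (Wf s)).Nonempty := by
    intro s
    induction s using Finset.induction_on with
    | empty =>
      intro _
      exact ⟨P2, by simpa [hWf] using hP2Z⟩
    | insert a s ha ih =>
      intro hst
      by_contra hcon
      have hat : a ∈ t := hst (Finset.mem_insert_self _ _)
      have haZ := htZ a hat
      have hne := ih ((Finset.subset_insert _ _).trans hst)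
      have heq : Wf (insert a s) = Wf s ∩ {x | f a x ≤ u a} := by
        simp only [hWf, Finset.set_biInter_insert]
        ext x
        simp only [mem_inter_iff]
        tauto
      have hfa : f a ≠ 0 := by
        intro h0
        obtain ⟨x, hx⟩ := hF1.interior_nonempty
        have h1 := hfu a haZ x (interior_subset hx)
        obtain ⟨i, h2⟩ := hfi a haZ
        rw [h0] at h1 h2
        simp at h1 h2
        linarith
      have hF1W : F1 ⊆ Wf (insert a s) := by
        intro x hx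
        refine ⟨hF1Z hx, mem_iInter₂.2 fun P hP => ?_⟩
        exact (hfu P (htZ P (hst hP)) x hx).le
      have hvol : 1 ≤ volume (Wf s ∩ {x | f a x ≤ u a}) := by
        rw [← heq, ← hF1.area]
        exact measure_mono hF1W
      rw [heq] at hcon
      exact sweep_main hα hn hN (hWc s) (hWk s) (f a) hfa (u a) hvol hne hcon
  obtain ⟨P, hP⟩ := hind t (Finset.Subset.refl _)
  have hPZ : P ∈ Conf α n Z := Conf.mono inter_subset_left hP
  obtain ⟨Q, hQt, i, hi⟩ : ∃ Q ∈ t, ∃ i, u Q < f Q (P i) := by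
    have := htcov hPZ
    simp only [mem_iUnion, hU, mem_ofPred_eq] at this
    obtain ⟨Q, hQ, h⟩ := this
    exact ⟨Q, hQ, h⟩
  have := (mem_iInter₂.1 (hP.1 i).2) Q hQt
  exact absurd hi (not_lt.2 this)

/-! Scaling. -/

open Pointwise in
lemma volume_smul (c : ℝ) (G : Set Plane) :
    volume ((fun x : Plane => c • x) '' G) = ENNReal.ofReal (c ^ 2) * volume G := by
  have := Measure.addHaar_smul (volume : Measure Plane) c G
  rw [show (fun x : Plane => c • x) '' G = c • G from rfl, this]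
  simp [Module.finrank_prod]

lemma unit_scale {G : Set Plane} (hc : Convex ℝ G) (hk : IsCompact G) (h0 : volume G ≠ 0) :
    ∃ c : ℝ, 0 < c ∧ c ^ 2 * (volume G).toReal = 1 ∧
      UnitFigure ((fun x : Plane => c • x) '' G) := by
  have hfin : volume G ≠ ⊤ := hk.measure_lt_top.ne
  have hpos : 0 < (volume G).toReal := ENNReal.toReal_pos h0 hfin
  set v := (volume G).toReal with hv
  refine ⟨1 / Real.sqrt v, by positivity, ?_, ?_⟩
  · rw [div_pow, one_pow, Real.sq_sqrt hpos.le]; field_simp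
  · have hc2 : (1 / Real.sqrt v) ^ 2 * v = 1 := by
      rw [div_pow, one_pow, Real.sq_sqrt hpos.le]; field_simp
    have hvol : volume ((fun x : Plane => (1 / Real.sqrt v) • x) '' G) = 1 := by
      rw [volume_smul, ← ENNReal.ofReal_toReal hfin, ← hv, ← ENNReal.ofReal_mul (by positivity),
        hc2, ENNReal.ofReal_one]
    have hconv : Convex ℝ ((fun x : Plane => (1 / Real.sqrt v) • x) '' G) := by
      have := hc.smul (1 / Real.sqrt v)
      exact this
    refine ⟨hconv, hk.image (by fun_prop), ?_, hvol⟩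
    have h1 : volume (interior ((fun x : Plane => (1 / Real.sqrt v) • x) '' G)) ≠ 0 := by
      rw [volume_interior_eq hconv, hvol]; exact one_ne_zero
    exact nonempty_of_measure_ne_zero h1

lemma noGap_of {α : ℝ} {n : ℕ}
    (h : ∀ F : Set Plane, UnitFigure F → (∃ Q : Fin n → Plane, (∀ j, Q j ∈ F) ∧ SBig α Q) →
      ∃ P : Fin (n + 1) → Plane, (∀ i, P i ∈ F) ∧ SBig α P) : NoGap α n := by
  intro G hGc hG h0 ⟨Q, hQ, hQb⟩
  obtain ⟨c, hc, hcv, hF⟩ := unit_scale hGc hG h0
  obtain ⟨P, hP, hPb⟩ := h _ hF ⟨fun j => c • Q j, fun j => ⟨Q j, hQ j, rfl⟩, by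
    intro i j l hij hjl hil
    have := hQb i j l hij hjl hil
    rw [triArea_smul]
    have h2 : c ^ 2 * (α * (volume G).toReal) < c ^ 2 * triArea (Q i) (Q j) (Q l) :=
      mul_lt_mul_of_pos_left this (by positivity)
    have h3 : c ^ 2 * (α * (volume G).toReal) = α := by
      rw [mul_left_comm, hcv, mul_one]
    linarith⟩
  choose P0 hP0 hP0e using hP
  refine ⟨P0, hP0, ?_⟩
  intro i j l hij hjl hil
  have := hPb i j l hij hjl hil
  rw [← hP0e i, ← hP0e j, ← hP0e l] at this
  simp only at this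
  rw [triArea_smul] at this
  have h3 : c ^ 2 * (α * (volume G).toReal) = α := by
    rw [mul_left_comm, hcv, mul_one]
  rw [← h3] at this
  exact lt_of_mul_lt_mul_left this (by positivity)

/-- The heart of the matter, in terms of tuples. -/
theorem exists_gap {α : ℝ} (hα : 0 < α) {n : ℕ} (hn : 2 ≤ n)
    (h1 : ∃ F, UnitFigure F ∧ ¬ ∃ P : Fin (n + 1) → Plane, (∀ i, P i ∈ F) ∧ Big α P)
    (h2 : ∃ F, UnitFigure F ∧ ∃ P : Fin (n + 1) → Plane, (∀ i, P i ∈ F) ∧ SBig α P) :
    ∃ F, UnitFigure F ∧ (∃ Q : Fin n → Plane, (∀ j, Q j ∈ F) ∧ SBig α Q) ∧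
      ¬ ∃ P : Fin (n + 1) → Plane, (∀ i, P i ∈ F) ∧ SBig α P := by
  by_contra hcon
  push Not at hcon
  obtain ⟨F1, hF1, hno⟩ := h1
  obtain ⟨F2, hF2, P2, hP2, hP2b⟩ := h2
  have hN : NoGap α n := noGap_of fun F hF hQ => by
    obtain ⟨Q, hQ, hQb⟩ := hQ
    by_contra h
    push Not at h
    exact hcon F hF ⟨Q, hQ, hQb⟩ |>.elim fun P hP => h P hP.1 hP.2
  refine extract hα hn hN hF1 hno P2 hP2b.big ?_
  rw [← hF2.area]
  exact measure_mono (convexHull_min (by rintro _ ⟨j, rfl⟩; exact hP2 j) hF2.convex)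

/-! Tuples versus finite sets, monotonicity. -/

lemma HasSmall.mono {α : ℝ} {F : Set Plane} {n n' : ℕ} (h : n ≤ n') (hs : HasSmall α F n) :
    HasSmall α F n' := by
  intro P hP hcard
  obtain ⟨Q, hQP, hQ⟩ := Finset.exists_subset_card_eq (s := P) (n := n) (by omega)
  obtain ⟨p, hp, q, hq, r, hr, h1⟩ := hs Q (fun x hx => hP (hQP hx)) hQ
  exact ⟨p, hQP hp, q, hQP hq, r, hQP hr, h1⟩

lemma not_hasSmall_lt_three {α : ℝ} {F : Set Plane} {n : ℕ} (hF : F.Infinite) (hn : n < 3) :
    ¬ HasSmall α F n := by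
  intro h
  obtain ⟨P, hP, hc⟩ := hF.exists_subset_card_eq n
  obtain ⟨p, hp, q, hq, r, hr, h1, h2, h3, -⟩ := h P hP hc
  have : 2 < P.card := Finset.two_lt_card.2 ⟨p, hp, q, hq, r, hr, h1, h3, h2⟩
  omega

lemma exists_tuple_of_not_hasSmall {α : ℝ} {F : Set Plane} {n : ℕ} (h : ¬ HasSmall α F n) :
    ∃ P : Fin n → Plane, (∀ i, P i ∈ F) ∧ SBig α P := by
  unfold HasSmall at h
  push Not at h
  obtain ⟨P, hP, hc, hall⟩ := h
  set e := P.equivFinOfCardEq hc
  refine ⟨fun i => (e.symm i : Plane), fun i => hP (e.symm i).2, fun i j l hij hjl hil => ?_⟩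
  have hne : ∀ a b : Fin n, a ≠ b → ((e.symm a : Plane)) ≠ (e.symm b : Plane) := by
    intro a b hab heq
    exact hab (e.symm.injective (Subtype.ext heq))
  exact hall _ (e.symm i).2 _ (e.symm j).2 _ (e.symm l).2 (hne _ _ hij) (hne _ _ hjl) (hne _ _ hil)

lemma HasSmall.tuple {α : ℝ} {F : Set Plane} {n : ℕ} (h : HasSmall α F n)
    {P : Fin n → Plane} (hP : ∀ i, P i ∈ F) (hinj : Function.Injective P) :
    ∃ i j l : Fin n, i ≠ j ∧ j ≠ l ∧ i ≠ l ∧ triArea (P i) (P j) (P l) ≤ α := by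
  classical
  obtain ⟨p, hp, q, hq, r, hr, h1, h2, h3, h4⟩ := h (Finset.univ.image P) (by
    intro x hx
    simp only [Finset.coe_image, Finset.coe_univ, image_univ, mem_range] at hx
    obtain ⟨i, rfl⟩ := hx
    exact hP i) (by rw [Finset.card_image_of_injective _ hinj]; simp)
  simp only [Finset.mem_image, Finset.mem_univ, true_and] at hp hq hr
  obtain ⟨i, rfl⟩ := hp
  obtain ⟨j, rfl⟩ := hq
  obtain ⟨l, rfl⟩ := hr
  exact ⟨i, j, l, fun h => h1 (by rw [h]), fun h => h2 (by rw [h]), fun h => h3 (by rw [h]), h4⟩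

/-! A uniform bound. -/

lemma volume_line (a : ℝ) : volume {x : Plane | x.1 = a} = 0 := by
  have : {x : Plane | x.1 = a} = ({a} : Set ℝ) ×ˢ (univ : Set ℝ) := by
    ext x; simp
  rw [this, Measure.volume_eq_prod, Measure.prod_prod]
  simp

lemma exists_uniform {α : ℝ} (hα : 0 < α) :
    ∃ N : ℕ, 0 < N ∧ ∀ F : Set Plane, UnitFigure F → HasSmall α F N := by
  classical
  obtain ⟨N0, hN0⟩ := exists_nat_gt (1 / α)
  have hN0pos : (0:ℝ) < N0 := lt_trans (by positivity) hN0
  have hN0' : 1 / (N0 : ℝ) < α := by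
    rw [div_lt_iff₀ hN0pos]
    rw [div_lt_iff₀ hα] at hN0
    linarith
  refine ⟨2 * (N0 + 1) + 1, by omega, ?_⟩
  intro F hF P hP hcard
  set g : ℝ → ℝ := fun t => (volume (F ∩ {x : Plane | x.1 ≤ t})).toReal with hg
  have hfin : ∀ A : Set Plane, volume (F ∩ A) ≠ ⊤ := by
    intro A
    refine ne_top_of_le_ne_top ?_ (measure_mono (inter_subset_left : F ∩ A ⊆ F))
    rw [hF.area]; exact ENNReal.one_ne_top
  have hg0 : ∀ t, 0 ≤ g t := fun t => ENNReal.toReal_nonneg
  have hg1 : ∀ t, g t ≤ 1 := by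
    intro t
    have : volume (F ∩ {x : Plane | x.1 ≤ t}) ≤ 1 := by
      rw [← hF.area]; exact measure_mono inter_subset_left
    have := ENNReal.toReal_mono ENNReal.one_ne_top this
    simpa using this
  set c : Plane → ℕ := fun p => ⌊(N0 : ℝ) * g p.1⌋₊ with hc
  have hmaps : ∀ p ∈ P, c p ∈ Finset.range (N0 + 1) := by
    intro p _
    simp only [hc, Finset.mem_range]
    have h1 : (N0 : ℝ) * g p.1 ≤ N0 := by nlinarith [hg1 p.1]
    have h2 := Nat.floor_mono h1
    rw [Nat.floor_natCast] at h2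
    omega
  obtain ⟨y, _, hy⟩ := Finset.exists_lt_card_fiber_of_mul_lt_card_of_maps_to (n := 2) hmaps
    (by rw [Finset.card_range, hcard]; omega)
  obtain ⟨p, q, r, hp, hq, hr, hpq, hpr, hqr⟩ := Finset.two_lt_card_iff.1 hy
  simp only [Finset.mem_filter] at hp hq hr
  refine ⟨p, hp.1, q, hq.1, r, hr.1, hpq, hqr, hpr, ?_⟩
  -- values of g on the three points
  have hval : ∀ z : Plane, c z = y → (y : ℝ) ≤ N0 * g z.1 ∧ (N0 : ℝ) * g z.1 < y + 1 := by
    intro z hz
    constructor
    · rw [← hz]; exact Nat.floor_le (mul_nonneg hN0pos.le (hg0 _))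
    · rw [← hz]; exact Nat.lt_floor_add_one _
  set A := min p.1 (min q.1 r.1) with hA
  set B := max p.1 (max q.1 r.1) with hB
  have hgA : (y : ℝ) ≤ N0 * g A := by
    have h1 := (hval p hp.2).1
    have h2 := (hval q hq.2).1
    have h3 := (hval r hr.2).1
    rcases min_choice p.1 (min q.1 r.1) with h | h
    · rw [hA, h]; exact h1
    · rcases min_choice q.1 r.1 with h' | h'
      · rw [hA, h, h']; exact h2
      · rw [hA, h, h']; exact h3
  have hgB : (N0 : ℝ) * g B < y + 1 := by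
    have h1 := (hval p hp.2).2
    have h2 := (hval q hq.2).2
    have h3 := (hval r hr.2).2
    rcases max_choice p.1 (max q.1 r.1) with h | h
    · rw [hB, h]; exact h1
    · rcases max_choice q.1 r.1 with h' | h'
      · rw [hB, h, h']; exact h2
      · rw [hB, h, h']; exact h3
  have hdiff : g B - g A < 1 / N0 := by
    rw [lt_div_iff₀ hN0pos]; linarith
  -- the strip
  set T : Set Plane := F ∩ {x : Plane | A ≤ x.1 ∧ x.1 ≤ B} with hT
  have hTconv : Convex ℝ T := by
    apply hF.convex.inter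
    have h1 : Convex ℝ {x : Plane | A ≤ x.1} :=
      convex_halfSpace_ge (f := fun x : Plane => x.1)
        (LinearMap.fst ℝ ℝ ℝ).isLinear A
    have h2 : Convex ℝ {x : Plane | x.1 ≤ B} :=
      convex_halfSpace_le (f := fun x : Plane => x.1)
        (LinearMap.fst ℝ ℝ ℝ).isLinear B
    exact h1.inter h2
  have hpT : p ∈ T := ⟨hP hp.1, min_le_left _ _, le_max_left _ _⟩
  have hqT : q ∈ T := ⟨hP hq.1, (min_le_right _ _).trans (min_le_left _ _),
    (le_max_left _ _).trans (le_max_right _ _)⟩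
  have hrT : r ∈ T := ⟨hP hr.1, (min_le_right _ _).trans (min_le_right _ _),
    (le_max_right _ _).trans (le_max_right _ _)⟩
  have hTvol : (volume T).toReal ≤ g B - g A := by
    have hlt : volume (F ∩ {x : Plane | x.1 ≤ A}) ≤ volume (F ∩ {x : Plane | x.1 < A}) := by
      have : F ∩ {x : Plane | x.1 ≤ A} ⊆ (F ∩ {x : Plane | x.1 < A}) ∪ {x : Plane | x.1 = A} := by
        rintro x ⟨hx, hx'⟩
        rcases (show x.1 ≤ A from hx').lt_or_eq with h | h
        · exact Or.inl ⟨hx, h⟩
        · exact Or.inr h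
      calc volume (F ∩ {x : Plane | x.1 ≤ A}) ≤ _ := measure_mono this
        _ ≤ volume (F ∩ {x : Plane | x.1 < A}) + volume {x : Plane | x.1 = A} :=
            measure_union_le _ _
        _ = _ := by rw [volume_line, add_zero]
    have hdisj : Disjoint (F ∩ {x : Plane | x.1 < A}) T := by
      rw [disjoint_left]
      rintro x ⟨_, hx⟩ ⟨_, hx', _⟩
      exact absurd hx (not_lt.2 hx')
    have hTm : MeasurableSet T := by
      apply hF.compact.measurableSet.inter
      exact (measurableSet_le measurable_const measurable_fst).inter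
        (measurableSet_le measurable_fst measurable_const)
    have hsub : (F ∩ {x : Plane | x.1 < A}) ∪ T ⊆ F ∩ {x : Plane | x.1 ≤ B} := by
      rintro x (⟨hx, hx'⟩ | ⟨hx, _, hx'⟩)
      · refine ⟨hx, ?_⟩
        have hAB : A ≤ B := (min_le_left _ _).trans (le_max_left _ _)
        exact (le_of_lt hx').trans hAB
      · exact ⟨hx, hx'⟩
    have hsum : volume (F ∩ {x : Plane | x.1 ≤ A}) + volume T ≤
        volume (F ∩ {x : Plane | x.1 ≤ B}) := by
      calc volume (F ∩ {x : Plane | x.1 ≤ A}) + volume T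
          ≤ volume (F ∩ {x : Plane | x.1 < A}) + volume T := by gcongr
        _ = volume ((F ∩ {x : Plane | x.1 < A}) ∪ T) := (measure_union hdisj hTm).symm
        _ ≤ _ := measure_mono hsub
    have h1 := ENNReal.toReal_mono (hfin _) hsum
    rw [ENNReal.toReal_add (hfin _) (hfin _)] at h1
    simp only [hg]
    linarith
  have htri := (triArea_le_volume p q r).trans (measure_mono
    (convexHull_min (by rintro x (rfl | rfl | rfl) <;> assumption) hTconv))
  have h2 := ENNReal.toReal_mono (hfin _) htri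
  rw [ENNReal.toReal_ofReal (triArea_nonneg _ _ _)] at h2
  linarith

/-! Adding a thin piece at a point touched by an inner disc. -/

lemma volume_lt_of_notMem {K L : Set Plane} (hK : IsCompact K) (hKL : K ⊆ L)
    (hLc : Convex ℝ L) (hint : (interior L).Nonempty) {p : Plane} (hp : p ∈ L)
    (hpK : p ∉ K) : volume K < volume L := by
  have hp' : p ∈ closure (interior L) := by
    rw [hLc.closure_interior_eq_closure_of_nonempty_interior hint]
    exact subset_closure hp
  have hopen : IsOpen (Kᶜ) := hK.isClosed.isOpen_compl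
  obtain ⟨y, hy1, hy2⟩ := mem_closure_iff.1 hp' Kᶜ hopen hpK
  have hpos : 0 < volume (Kᶜ ∩ interior L) :=
    (hopen.inter isOpen_interior).measure_pos volume ⟨y, hy1, hy2⟩
  have hdisj : Disjoint K (Kᶜ ∩ interior L) :=
    disjoint_left.2 fun x hx hx' => hx'.1 hx
  have hfin : volume K ≠ ⊤ := hK.measure_lt_top.ne
  calc volume K < volume K + volume (Kᶜ ∩ interior L) :=
        ENNReal.lt_add_right hfin hpos.ne'
    _ = volume (K ∪ (Kᶜ ∩ interior L)) :=
        (measure_union hdisj (hopen.inter isOpen_interior).measurableSet).symm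
    _ ≤ volume L := measure_mono (union_subset hKL fun x hx => interior_subset hx.2)

/-- squared Euclidean length -/
def nsq (v : Plane) : ℝ := v.1 ^ 2 + v.2 ^ 2

lemma nsq_nonneg (v : Plane) : 0 ≤ nsq v := by unfold nsq; positivity

lemma continuous_nsq (o : Plane) : Continuous fun z : Plane => nsq (z - o) := by
  unfold nsq; fun_prop

lemma line_null (a b c : ℝ) (hab : 0 < a ^ 2 + b ^ 2) :
    volume {z : Plane | a * z.1 + b * z.2 = c} = 0 := by
  have hconv : Convex ℝ {z : Plane | a * z.1 + b * z.2 = c} := by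
    intro x hx y hy s t _ _ hst
    simp only [mem_ofPred_eq, Prod.fst_add, Prod.snd_add, Prod.smul_fst, Prod.smul_snd,
      smul_eq_mul] at *
    linear_combination s * hx + t * hy + c * hst
  rw [← volume_interior_eq hconv]
  have : interior {z : Plane | a * z.1 + b * z.2 = c} = ∅ := by
    rw [eq_empty_iff_forall_notMem]
    intro z hz
    rw [mem_interior_iff_mem_nhds] at hz
    have hcont : Continuous fun t : ℝ => z + t • ((a, b) : Plane) := by fun_prop
    have h1 : ∀ᶠ t in 𝓝 (0:ℝ), z + t • ((a, b) : Plane) ∈ {z : Plane | a * z.1 + b * z.2 = c} :=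
      hcont.continuousAt.eventually_mem (by simpa using hz)
    obtain ⟨δ, hδ, hball⟩ := Metric.eventually_nhds_iff.1 h1
    have h2 := hball (y := δ / 2) (by simp [abs_of_pos hδ]; linarith)
    have h3 := mem_of_mem_nhds hz
    simp only [mem_ofPred_eq, Prod.fst_add, Prod.snd_add, Prod.smul_fst, Prod.smul_snd,
      smul_eq_mul] at h2 h3
    have h4 : δ / 2 * (a ^ 2 + b ^ 2) = 0 := by linear_combination h2 - h3
    have h5 : 0 < δ / 2 * (a ^ 2 + b ^ 2) := by positivity
    linarith
  rw [this, measure_empty]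

lemma nsq_ball_convex (o : Plane) (c : ℝ) : Convex ℝ {z : Plane | nsq (z - o) ≤ c} := by
  intro x hx z hz s t hs ht hst
  simp only [mem_ofPred_eq, nsq, Prod.fst_sub, Prod.snd_sub, Prod.fst_add, Prod.snd_add,
    Prod.smul_fst, Prod.smul_snd, smul_eq_mul] at *
  have e1 : s * x.1 + t * z.1 - o.1 = s * (x.1 - o.1) + t * (z.1 - o.1) := by
    linear_combination o.1 * hst
  have e2 : s * x.2 + t * z.2 - o.2 = s * (x.2 - o.2) + t * (z.2 - o.2) := by
    linear_combination o.2 * hst
  rw [e1, e2]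
  have hjen : ∀ A B : ℝ, (s * A + t * B) ^ 2 ≤ s * A ^ 2 + t * B ^ 2 := by
    intro A B
    have h1 : s * A ^ 2 + t * B ^ 2 - (s * A + t * B) ^ 2 = s * t * (A - B) ^ 2 := by
      have ht' : t = 1 - s := by linarith
      rw [ht']; ring
    have h2 : 0 ≤ s * t * (A - B) ^ 2 := by positivity
    linarith
  have h1 := hjen (x.1 - o.1) (z.1 - o.1)
  have h2 := hjen (x.2 - o.2) (z.2 - o.2)
  have h4 : s * ((x.1 - o.1) ^ 2 + (x.2 - o.2) ^ 2) ≤ s * c :=
    mul_le_mul_of_nonneg_left hx hs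
  have h5 : t * ((z.1 - o.1) ^ 2 + (z.2 - o.2) ^ 2) ≤ t * c :=
    mul_le_mul_of_nonneg_left hz ht
  have h6 : s * c + t * c = c := by rw [← add_mul, hst, one_mul]
  linarith

lemma strip_convex (o : Plane) (fa fb ν : ℝ) :
    Convex ℝ {z : Plane | |fa * (z.1 - o.1) + fb * (z.2 - o.2) - 1| ≤ ν} := by
  intro x hx z hz s t hs ht hst
  simp only [mem_ofPred_eq, Prod.fst_add, Prod.snd_add, Prod.smul_fst, Prod.smul_snd,
    smul_eq_mul, abs_le] at *
  have e : fa * (s * x.1 + t * z.1 - o.1) + fb * (s * x.2 + t * z.2 - o.2) - 1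
      = s * (fa * (x.1 - o.1) + fb * (x.2 - o.2) - 1)
        + t * (fa * (z.1 - o.1) + fb * (z.2 - o.2) - 1) := by
    linear_combination (fa * o.1 + fb * o.2 + 1) * hst
  rw [e]
  have hν : s * ν + t * ν = ν := by rw [← add_mul, hst, one_mul]
  have a1 := mul_le_mul_of_nonneg_left hx.1 hs
  have a2 := mul_le_mul_of_nonneg_left hz.1 ht
  have a3 := mul_le_mul_of_nonneg_left hx.2 hs
  have a4 := mul_le_mul_of_nonneg_left hz.2 ht
  constructor <;> linarith

lemma abs_le_of_sq_le {t c : ℝ} (h : t ^ 2 ≤ c) : |t| ≤ c + 1 := by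
  rw [abs_le]
  constructor <;> nlinarith [sq_nonneg (t - 1), sq_nonneg (t + 1)]

lemma thin_small (o : Plane) {fa fb : ℝ} (hf : 0 < fa ^ 2 + fb ^ 2) (c : ℝ) {α : ℝ}
    (hα : 0 < α) : ∃ ν : ℝ, 0 < ν ∧
      volume {z : Plane | nsq (z - o) ≤ c ∧ |fa * (z.1 - o.1) + fb * (z.2 - o.2) - 1| ≤ ν} <
        ENNReal.ofReal α := by
  set T : ℕ → Set Plane := fun N => {z | nsq (z - o) ≤ c ∧
    |fa * (z.1 - o.1) + fb * (z.2 - o.2) - 1| ≤ 1 / ((N : ℝ) + 1)} with hT
  have hTanti : Antitone T := by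
    intro a b hab z hz
    refine ⟨hz.1, hz.2.trans ?_⟩
    have hab' : (a : ℝ) ≤ b := by exact_mod_cast hab
    exact one_div_le_one_div_of_le (by positivity) (by linarith)
  have hTclosed : ∀ N, IsClosed (T N) := fun N =>
    (isClosed_le (continuous_nsq o) continuous_const).inter (isClosed_le
      (by fun_prop : Continuous fun z : Plane => |fa * (z.1 - o.1) + fb * (z.2 - o.2) - 1|)
      continuous_const)
  have hTbdd : ∀ N, volume (T N) ≠ ⊤ := by
    intro N
    have hsub : T N ⊆ Metric.closedBall o (c + 1) := by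
      intro z hz
      have h1 : nsq (z - o) ≤ c := hz.1
      unfold nsq at h1
      rw [Metric.mem_closedBall, dist_eq_norm, Prod.norm_def, max_le_iff, Real.norm_eq_abs,
        Real.norm_eq_abs]
      exact ⟨abs_le_of_sq_le (by linarith [sq_nonneg (z - o).2]),
        abs_le_of_sq_le (by linarith [sq_nonneg (z - o).1])⟩
    exact ((isCompact_closedBall o (c + 1)).measure_lt_top.trans_le' (measure_mono hsub)).ne
  have hTlim : (⨅ N, volume (T N)) = 0 := by
    rw [← hTanti.directed_ge.measure_iInter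
      (fun N => (hTclosed N).measurableSet.nullMeasurableSet) ⟨0, hTbdd 0⟩]
    refine measure_mono_null ?_ (line_null fa fb (1 + fa * o.1 + fb * o.2) hf)
    intro z hz
    have h1 : ∀ N : ℕ, |fa * (z.1 - o.1) + fb * (z.2 - o.2) - 1| ≤ 1 / ((N : ℝ) + 1) :=
      fun N => (mem_iInter.1 hz N).2
    have h2 : |fa * (z.1 - o.1) + fb * (z.2 - o.2) - 1| ≤ 0 :=
      ge_of_tendsto' (tendsto_one_div_add_atTop_nhds_zero_nat (𝕜 := ℝ)) h1
    have h3 := abs_nonpos_iff.1 h2
    show fa * z.1 + fb * z.2 = 1 + fa * o.1 + fb * o.2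
    linarith
  obtain ⟨N, hN⟩ : ∃ N, volume (T N) < ENNReal.ofReal α := by
    rw [← iInf_lt_iff, hTlim, ENNReal.ofReal_pos]; exact hα
  exact ⟨1 / ((N : ℝ) + 1), by positivity, hN⟩

lemma dual_bound {a b ρ : ℝ} (hρ : 0 < ρ)
    (h : ∀ v : Plane, nsq v < ρ → a * v.1 + b * v.2 ≤ 1) : (a ^ 2 + b ^ 2) * ρ ≤ 1 := by
  by_contra hcon
  push Not at hcon
  set s := a ^ 2 + b ^ 2 with hs
  have hspos : 0 < s := by
    by_contra h0
    have : s = 0 := le_antisymm (not_lt.1 h0) (by rw [hs]; positivity)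
    rw [this] at hcon; linarith
  set κ := 2 * (s * ρ) / (1 + s * ρ) with hκ
  have hk1 : 1 < κ := by
    rw [hκ, lt_div_iff₀ (by positivity)]; linarith
  have hk2 : κ ^ 2 < s * ρ := by
    rw [hκ, div_pow, div_lt_iff₀ (by positivity)]
    have : 0 < (s * ρ - 1) ^ 2 := by
      apply sq_pos_of_pos; linarith
    nlinarith [mul_pos hspos hρ]
  have hmem := h ((κ / s) • ((a, b) : Plane)) (by
    have : nsq ((κ / s) • ((a, b) : Plane)) = κ ^ 2 / s := by
      unfold nsq
      simp only [Prod.smul_fst, smul_eq_mul, Prod.smul_snd]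
      rw [mul_pow, mul_pow, ← mul_add, ← hs]
      field_simp
    rw [this, div_lt_iff₀ hspos]
    linarith)
  simp only [Prod.smul_fst, smul_eq_mul, Prod.smul_snd] at hmem
  have h2 : a * (κ / s * a) + b * (κ / s * b) = κ := by
    have : a * (κ / s * a) + b * (κ / s * b) = κ / s * s := by rw [hs]; ring
    rw [this]; field_simp
  linarith

/-- A functional bounded by one on the disc of squared radius `ρ` and almost one at `(u, v)`
on its boundary is close to the tangent functional. -/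
lemma close_bound {a b u v ρ ε : ℝ} (hρ : 0 < ρ) (huv : u ^ 2 + v ^ 2 = ρ)
    (hab : (a ^ 2 + b ^ 2) * ρ ≤ 1) (h1 : 1 - ε ≤ a * u + b * v) :
    (a - u / ρ) ^ 2 + (b - v / ρ) ^ 2 ≤ 2 * ε / ρ := by
  have h2 : (a - u / ρ) ^ 2 + (b - v / ρ) ^ 2 =
      ((a ^ 2 + b ^ 2) * ρ - 2 * (a * u + b * v) + (u ^ 2 + v ^ 2) / ρ) / ρ := by
    field_simp; ring
  rw [h2, huv, div_self hρ.ne']
  apply div_le_div_of_nonneg_right _ hρ.le
  linarith

lemma frontier_cross {F : Set Plane} (hk : IsClosed F) {o : Plane} (ho : o ∈ interior F)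
    {z : Plane} (hz : z ∉ F) :
    ∃ y' ∈ frontier F, ∃ t ∈ Icc (0:ℝ) 1, y' = o + t • (z - o) := by
  have hpre : IsPreconnected (segment ℝ o z) := (convex_segment o z).isPreconnected
  obtain ⟨y', hy's, hy'f⟩ : ∃ y' ∈ segment ℝ o z, y' ∈ frontier F := by
    by_contra hcon
    push Not at hcon
    have hcov : segment ℝ o z ⊆ interior F ∪ Fᶜ := by
      intro w hw
      by_cases hwF : w ∈ F
      · left
        by_contra hwi
        exact hcon w hw ⟨subset_closure hwF, hwi⟩
      · exact Or.inr hwF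
    obtain ⟨w, _, hw1, hw2⟩ := hpre _ _ isOpen_interior hk.isOpen_compl hcov
      ⟨o, left_mem_segment ℝ o z, ho⟩ ⟨z, right_mem_segment ℝ o z, hz⟩
    exact hw2 (interior_subset hw1)
  rw [segment_eq_image'] at hy's
  obtain ⟨t, ht, rfl⟩ := hy's
  exact ⟨_, hy'f, t, ht, rfl⟩

/-- a boundary point touched from inside by a Euclidean disc -/
lemma exists_touch {F : Set Plane} (hk : IsCompact F) {o : Plane} (ho : o ∈ interior F) :
    ∃ y ∈ F, y ∉ interior F ∧ 0 < nsq (y - o) ∧ ∀ z, nsq (z - o) < nsq (y - o) → z ∈ F := by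
  have hfk : IsCompact (frontier F) :=
    hk.of_isClosed_subset isClosed_frontier hk.isClosed.frontier_subset
  have hfne : (frontier F).Nonempty := by
    obtain ⟨R, hR⟩ := hk.isBounded.subset_closedBall 0
    have : ∃ z, z ∉ F := by
      refine ⟨((|R| + 1, 0) : Plane), fun h => ?_⟩
      have := hR h
      rw [Metric.mem_closedBall, dist_zero_right] at this
      have h2 : |(|R| + 1 : ℝ)| ≤ ‖((|R| + 1, 0) : Plane)‖ := norm_fst_le ((|R| + 1, 0) : Plane)
      rw [abs_of_pos (by positivity)] at h2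
      have := le_abs_self R
      linarith
    obtain ⟨z, hz⟩ := this
    obtain ⟨y', hy', _⟩ := frontier_cross hk.isClosed ho hz
    exact ⟨y', hy'⟩
  obtain ⟨y, hy, hymin⟩ := hfk.exists_isMinOn hfne (continuous_nsq o).continuousOn
  have hyno : y ∉ interior F := hy.2
  refine ⟨y, hk.isClosed.frontier_subset hy, hyno, ?_, ?_⟩
  · have hne : y ≠ o := fun h => hyno (h ▸ ho)
    have : (y - o).1 ≠ 0 ∨ (y - o).2 ≠ 0 := by
      by_contra hcon
      push Not at hcon
      exact hne (sub_eq_zero.1 (Prod.ext hcon.1 hcon.2))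
    unfold nsq
    rcases this with h | h
    · have := sq_pos_of_ne_zero h
      have := sq_nonneg (y - o).2
      linarith
    · have := sq_pos_of_ne_zero h
      have := sq_nonneg (y - o).1
      linarith
  · intro z hz
    by_contra hzF
    obtain ⟨y', hy', t, ht, hyt⟩ := frontier_cross hk.isClosed ho hzF
    have h1 : nsq (y - o) ≤ nsq (y' - o) := hymin hy'
    have h2 : nsq (y' - o) = t ^ 2 * nsq (z - o) := by
      rw [hyt]; unfold nsq; simp; ring
    have h3 : t ^ 2 ≤ 1 := by nlinarith [ht.1, ht.2]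
    have h4 := nsq_nonneg (z - o)
    nlinarith

lemma hull_insert_eq {F : Set Plane} (hc : Convex ℝ F) (hne : F.Nonempty) (x : Plane) :
    convexHull ℝ (insert x F) =
      (fun w : ℝ × Plane => (1 - w.1) • x + w.1 • w.2) '' (Icc (0:ℝ) 1 ×ˢ F) := by
  rw [convexHull_insert hne, hc.convexHull_eq, convexJoin_singleton_left]
  ext z
  constructor
  · intro hz
    simp only [mem_iUnion] at hz
    obtain ⟨w, hw, hz⟩ := hz
    rw [segment_eq_image] at hz
    obtain ⟨s, hs, rfl⟩ := hz
    exact ⟨(s, w), ⟨hs, hw⟩, rfl⟩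
  · rintro ⟨⟨s, w⟩, ⟨hs, hw⟩, rfl⟩
    simp only [mem_iUnion]
    refine ⟨w, hw, ?_⟩
    rw [segment_eq_image]
    exact ⟨s, hs, rfl⟩

/-- points added by coning from a point just outside a touching point are close to the tangent
line -/
lemma cone_close {F : Set Plane} (hc : Convex ℝ F) (hk : IsCompact F) {o y : Plane}
    (ho : o ∈ interior F) (hyF : y ∈ F) (hρ : 0 < nsq (y - o))
    (hball : ∀ z, nsq (z - o) < nsq (y - o) → z ∈ F) {ε : ℝ} (hε : 0 < ε) {c : ℝ}
    {z : Plane} (hz : z ∈ convexHull ℝ (insert (o + (1 + ε) • (y - o)) F)) (hzF : z ∉ F)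
    (hzc : nsq (z - o) ≤ c) {ν : ℝ} (hν : 0 < ν) (hε2 : ε ≤ ν / 2)
    (hε3 : (2 * ε / nsq (y - o)) * c ≤ (ν / 2) ^ 2) :
    |(y - o).1 / nsq (y - o) * (z.1 - o.1) + (y - o).2 / nsq (y - o) * (z.2 - o.2) - 1| ≤ ν := by
  set ρ := nsq (y - o) with hρd
  set x : Plane := o + (1 + ε) • (y - o) with hx
  obtain ⟨φ, u, hφ1, hφ2⟩ := geometric_hahn_banach_closed_point hc hk.isClosed hzF
  have hφo : φ o < u := hφ1 o (interior_subset ho)
  have hupos : 0 < u - φ o := by linarith
  obtain ⟨a, b, hform⟩ : ∃ a b : ℝ, ∀ w : Plane, a * (w.1 - o.1) + b * (w.2 - o.2) =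
      (φ w - φ o) / (u - φ o) := by
    refine ⟨φ (1, 0) / (u - φ o), φ (0, 1) / (u - φ o), fun w => ?_⟩
    have h1 : w - o = (w.1 - o.1) • ((1, 0) : Plane) + (w.2 - o.2) • ((0, 1) : Plane) := by
      ext <;> simp
    have h2 : φ w - φ o = (w.1 - o.1) * φ (1, 0) + (w.2 - o.2) * φ (0, 1) := by
      rw [← map_sub, h1, map_add, map_smul, map_smul, smul_eq_mul, smul_eq_mul]
    rw [h2]
    have : u - φ o ≠ 0 := hupos.ne'
    field_simp
  have hF1 : ∀ w ∈ F, a * (w.1 - o.1) + b * (w.2 - o.2) ≤ 1 := by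
    intro w hw
    rw [hform, div_le_one hupos]
    linarith [hφ1 w hw]
  have hz1 : 1 < a * (z.1 - o.1) + b * (z.2 - o.2) := by
    rw [hform, one_lt_div hupos]
    linarith
  have hs : (a ^ 2 + b ^ 2) * ρ ≤ 1 := by
    apply dual_bound hρ
    intro v hv
    have := hF1 (o + v) (hball _ (by simpa using hv))
    simpa using this
  have hy1 : a * (y.1 - o.1) + b * (y.2 - o.2) ≤ 1 := hF1 y hyF
  have hxval : a * (x.1 - o.1) + b * (x.2 - o.2) =
      (1 + ε) * (a * (y.1 - o.1) + b * (y.2 - o.2)) := by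
    rw [hx]; simp; ring
  obtain ⟨hxgt, hzle⟩ : 1 < a * (x.1 - o.1) + b * (x.2 - o.2) ∧
      a * (z.1 - o.1) + b * (z.2 - o.2) ≤ 1 + ε := by
    rw [hull_insert_eq hc ⟨y, hyF⟩] at hz
    obtain ⟨⟨s, w⟩, ⟨hs', hw⟩, hzw⟩ := hz
    have hs0 : 0 ≤ s := hs'.1
    have hs1 : s ≤ 1 := hs'.2
    have hw1 := hF1 w hw
    have e : a * (z.1 - o.1) + b * (z.2 - o.2) =
        (1 - s) * (a * (x.1 - o.1) + b * (x.2 - o.2)) +
        s * (a * (w.1 - o.1) + b * (w.2 - o.2)) := by
      rw [← hzw]; simp; ring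
    clear_value x
    generalize a * (z.1 - o.1) + b * (z.2 - o.2) = Z at *
    generalize a * (x.1 - o.1) + b * (x.2 - o.2) = X at *
    generalize a * (w.1 - o.1) + b * (w.2 - o.2) = Wv at *
    generalize a * (y.1 - o.1) + b * (y.2 - o.2) = Y at *
    have hX : X ≤ 1 + ε := by
      rw [hxval]
      have := mul_le_mul_of_nonneg_left hy1 (by linarith : 0 ≤ 1 + ε)
      linarith
    have b1 := mul_le_mul_of_nonneg_left hw1 hs0
    constructor
    · by_contra hcon
      push Not at hcon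
      have b2 := mul_le_mul_of_nonneg_left hcon (by linarith : 0 ≤ 1 - s)
      linarith
    · have b2 := mul_le_mul_of_nonneg_left hX (by linarith : 0 ≤ 1 - s)
      have b3 := mul_nonneg hs0 hε.le
      rw [e]
      linarith
  have h1 : 1 - ε ≤ a * (y.1 - o.1) + b * (y.2 - o.2) := by
    rw [hxval] at hxgt
    by_contra hcon
    push Not at hcon
    have := mul_lt_mul_of_pos_left hcon (by linarith : 0 < 1 + ε)
    have h0 : (1 + ε) * (1 - ε) = 1 - ε ^ 2 := by ring
    have h2 : 0 < ε ^ 2 := by positivity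
    linarith
  have hclose := close_bound (u := y.1 - o.1) (v := y.2 - o.2) hρ
    (by rw [hρd]; unfold nsq; simp) hs h1
  have hdiff : |(a - (y.1 - o.1) / ρ) * (z.1 - o.1) + (b - (y.2 - o.2) / ρ) * (z.2 - o.2)|
      ≤ ν / 2 := by
    apply abs_le_of_sq_le_sq _ (by positivity)
    have hcs : ∀ p q r t : ℝ, (p * r + q * t) ^ 2 ≤ (p ^ 2 + q ^ 2) * (r ^ 2 + t ^ 2) := by
      intro p q r t
      nlinarith [sq_nonneg (p * t - q * r)]
    have hcs' := hcs (a - (y.1 - o.1) / ρ) (b - (y.2 - o.2) / ρ) (z.1 - o.1) (z.2 - o.2)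
    have h0 : nsq (z - o) = (z.1 - o.1) ^ 2 + (z.2 - o.2) ^ 2 := by unfold nsq; simp
    rw [← h0] at hcs'
    have h00 := nsq_nonneg (z - o)
    have hp : 0 ≤ 2 * ε / ρ := by positivity
    refine hcs'.trans (le_trans ?_ hε3)
    exact mul_le_mul hclose hzc h00 hp
  have e : (y - o).1 / ρ * (z.1 - o.1) + (y - o).2 / ρ * (z.2 - o.2) - 1 =
      (a * (z.1 - o.1) + b * (z.2 - o.2) - 1) -
      ((a - (y.1 - o.1) / ρ) * (z.1 - o.1) + (b - (y.2 - o.2) / ρ) * (z.2 - o.2)) := by
    simp only [Prod.fst_sub, Prod.snd_sub]; ring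
  rw [e]
  rw [abs_le] at hdiff ⊢
  constructor
  · linarith [hdiff.1, hdiff.2]
  · linarith [hdiff.1, hdiff.2]

lemma thin_extension {F : Set Plane} (hc : Convex ℝ F) (hk : IsCompact F)
    (hint : (interior F).Nonempty) {α : ℝ} (hα : 0 < α) :
    ∃ G T : Set Plane, Convex ℝ G ∧ IsCompact G ∧ F ⊆ G ∧ volume F < volume G ∧ Convex ℝ T ∧
      volume T < ENNReal.ofReal α ∧ G ⊆ F ∪ T := by
  obtain ⟨o, ho⟩ := hint
  obtain ⟨y, hyF, hyno, hρpos, hball⟩ := exists_touch hk ho
  obtain ⟨w0, hw0, hw0max⟩ := hk.exists_isMaxOn ⟨y, hyF⟩ (continuous_nsq o).continuousOn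
  have hDF : ∀ z ∈ F, nsq (z - o) ≤ nsq (w0 - o) := fun z hz => hw0max hz
  generalize hD : nsq (w0 - o) = D at hDF
  have hρD : nsq (y - o) ≤ D := hDF y hyF
  have hDpos : 0 < D := lt_of_lt_of_le hρpos hρD
  have hfpos : 0 < ((y - o).1 / nsq (y - o)) ^ 2 + ((y - o).2 / nsq (y - o)) ^ 2 := by
    have : ((y - o).1 / nsq (y - o)) ^ 2 + ((y - o).2 / nsq (y - o)) ^ 2 =
        nsq (y - o) / nsq (y - o) ^ 2 := by
      rw [div_pow, div_pow, ← add_div]; rfl
    rw [this]; positivity
  obtain ⟨ν, hνpos, hνα⟩ := thin_small o hfpos (4 * D) hα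
  obtain ⟨ε, hε0, hε1, hε2, hε3⟩ : ∃ ε : ℝ, 0 < ε ∧ ε ≤ 1 ∧ ε ≤ ν / 2 ∧
      (2 * ε / nsq (y - o)) * (4 * D) ≤ (ν / 2) ^ 2 := by
    generalize nsq (y - o) = ρ at *
    refine ⟨min 1 (min (ν / 2) ((ν / 2) ^ 2 * ρ / (8 * D))), ?_, min_le_left _ _,
      (min_le_right _ _).trans (min_le_left _ _), ?_⟩
    · refine lt_min one_pos (lt_min (by positivity) (by positivity))
    · have h1 : min 1 (min (ν / 2) ((ν / 2) ^ 2 * ρ / (8 * D))) ≤ (ν / 2) ^ 2 * ρ / (8 * D) :=
        (min_le_right _ _).trans (min_le_right _ _)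
      calc (2 * min 1 (min (ν / 2) ((ν / 2) ^ 2 * ρ / (8 * D))) / ρ) * (4 * D)
          ≤ (2 * ((ν / 2) ^ 2 * ρ / (8 * D)) / ρ) * (4 * D) := by gcongr
        _ = (ν / 2) ^ 2 := by field_simp; ring
  set x : Plane := o + (1 + ε) • (y - o) with hx
  have hxF : x ∉ F := by
    intro hxF
    apply hyno
    apply hc.openSegment_interior_self_subset_interior ho hxF
    refine ⟨1 - 1 / (1 + ε), 1 / (1 + ε), ?_, by positivity, by ring, ?_⟩
    · have : 1 / (1 + ε) < 1 := by rw [div_lt_one (by positivity)]; linarith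
      linarith
    · rw [hx]
      have h1 : (1 + ε) ≠ 0 := by positivity
      ext
      · simp; field_simp; ring
      · simp; field_simp; ring
  have hFG : F ⊆ convexHull ℝ (insert x F) := (subset_insert _ _).trans (subset_convexHull ℝ _)
  have hGk : IsCompact (convexHull ℝ (insert x F)) := by
    rw [hull_insert_eq hc ⟨y, hyF⟩]
    exact (isCompact_Icc.prod hk).image (by fun_prop)
  have hGc : Convex ℝ (convexHull ℝ (insert x F)) := convex_convexHull ℝ _
  have hxG : x ∈ convexHull ℝ (insert x F) := subset_convexHull ℝ _ (mem_insert _ _)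
  refine ⟨convexHull ℝ (insert x F), _, hGc, hGk, hFG, volume_lt_of_notMem hk hFG hGc
    ⟨o, interior_mono hFG ho⟩ hxG hxF, (nsq_ball_convex o (4 * D)).inter
      (strip_convex o _ _ ν), hνα, ?_⟩
  intro z hz
  by_cases hzF : z ∈ F
  · exact Or.inl hzF
  right
  have hxo : nsq (x - o) ≤ 4 * D := by
    have : nsq (x - o) = (1 + ε) ^ 2 * nsq (y - o) := by
      rw [hx]; unfold nsq; simp; ring
    rw [this]
    have h1 : (1 + ε) ^ 2 ≤ 4 := by nlinarith
    exact mul_le_mul h1 hρD hρpos.le (by norm_num)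
  have hz4 : nsq (z - o) ≤ 4 * D := by
    have : convexHull ℝ (insert x F) ⊆ {z : Plane | nsq (z - o) ≤ 4 * D} := by
      apply convexHull_min _ (nsq_ball_convex o (4 * D))
      rintro w (rfl | hw)
      · exact hxo
      · exact (hDF w hw).trans (by linarith)
    exact this hz
  exact ⟨hz4, cone_close hc hk ho hyF hρpos hball hε0 hz hzF hz4 hνpos hε2 hε3⟩

/-! Two more points: a figure with a strict bound. -/

lemma exists_strict {α : ℝ} (hα : 0 < α) {F : Set Plane} (hF : UnitFigure F) {n : ℕ}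
    (hn : 3 ≤ n) (h : HasSmall α F n) {k : ℕ} (hk : n + 2 ≤ k) :
    ∃ G, UnitFigure G ∧ ¬ ∃ P : Fin k → Plane, (∀ i, P i ∈ G) ∧ Big α P := by
  classical
  obtain ⟨G, T, hGc, hGk, hFG, hvol, hTc, hTv, hGT⟩ :=
    thin_extension hF.convex hF.compact hF.interior_nonempty hα
  rw [hF.area] at hvol
  have hG0 : volume G ≠ 0 := (zero_lt_one.trans hvol).ne'
  have hGfin : volume G ≠ ⊤ := hGk.measure_lt_top.ne
  obtain ⟨c, hc, hcv, hG'⟩ := unit_scale hGc hGk hG0
  have hv1 : 1 < (volume G).toReal := by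
    have := (ENNReal.toReal_lt_toReal ENNReal.one_ne_top hGfin).2 hvol
    simpa using this
  refine ⟨_, hG', ?_⟩
  rintro ⟨P, hP, hPb⟩
  choose P0 hP0 hP0e using hP
  -- triangles of P0 exceed α
  have hbig : ∀ i j l : Fin k, i ≠ j → j ≠ l → i ≠ l → α < triArea (P0 i) (P0 j) (P0 l) := by
    intro i j l hij hjl hil
    have h1 := hPb i j l hij hjl hil
    rw [← hP0e i, ← hP0e j, ← hP0e l] at h1
    simp only at h1
    rw [triArea_smul] at h1
    have h2 : 0 ≤ triArea (P0 i) (P0 j) (P0 l) := triArea_nonneg _ _ _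
    have h3 : α * (volume G).toReal ≤ triArea (P0 i) (P0 j) (P0 l) := by
      have h4 : (volume G).toReal * (c ^ 2 * triArea (P0 i) (P0 j) (P0 l)) =
          triArea (P0 i) (P0 j) (P0 l) := by
        rw [← mul_assoc, mul_comm (volume G).toReal, hcv, one_mul]
      rw [← h4, mul_comm]
      gcongr
    nlinarith
  have hinj : Function.Injective P0 :=
    Big.injective (t := α) (by omega) hα fun i j l a b d => (hbig i j l a b d).le
  -- at most two points outside F
  set O := (Finset.univ.filter fun i => P0 i ∉ F : Finset (Fin k)) with hO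
  have hOcard : O.card ≤ 2 := by
    by_contra hcon
    push Not at hcon
    obtain ⟨i, j, l, hi, hj, hl, hij, hil, hjl⟩ := Finset.two_lt_card_iff.1 hcon
    simp only [hO, Finset.mem_filter, Finset.mem_univ, true_and] at hi hj hl
    have hT : ∀ i, P0 i ∉ F → P0 i ∈ T := fun i hi => (hGT (hP0 i)).resolve_left hi
    have h1 := (triArea_le_volume (P0 i) (P0 j) (P0 l)).trans (measure_mono
      (convexHull_min (by
        rintro x (rfl | rfl | rfl)
        · exact hT _ hi
        · exact hT _ hj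
        · exact hT _ hl) hTc))
    have h2 := (ENNReal.ofReal_lt_ofReal_iff hα).1 (h1.trans_lt hTv)
    exact absurd (hbig i j l hij hjl hil) (not_lt.2 h2.le)
  have hIcard : n ≤ ((Finset.univ.filter fun i => P0 i ∈ F : Finset (Fin k)).image P0).card := by
    rw [Finset.card_image_of_injective _ hinj]
    have := Finset.card_filter_add_card_filter_not (s := (Finset.univ : Finset (Fin k)))
      (p := fun i => P0 i ∈ F)
    rw [Finset.card_univ, Fintype.card_fin] at this
    have h5 : (Finset.univ.filter fun a : Fin k => P0 a ∉ F).card ≤ 2 := by convert hOcard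
    omega
  obtain ⟨p, hp, q, hq, r, hr, h1, h2, h3, h4⟩ := (h.mono hIcard) _ (by
    intro x hx
    simp only [Finset.coe_image, Finset.coe_filter, Finset.mem_univ, true_and, mem_image,
      mem_ofPred_eq] at hx
    obtain ⟨i, hi, rfl⟩ := hx
    exact hi) rfl
  simp only [Finset.mem_image, Finset.mem_filter, Finset.mem_univ, true_and] at hp hq hr
  obtain ⟨i, _, rfl⟩ := hp
  obtain ⟨j, _, rfl⟩ := hq
  obtain ⟨l, _, rfl⟩ := hr
  exact absurd (hbig i j l (fun h => h1 (by rw [h])) (fun h => h2 (by rw [h]))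
    (fun h => h3 (by rw [h]))) (not_lt.2 h4)

/-! The function `S`, its minimum and its maximum. -/

lemma UnitFigure.infinite {F : Set Plane} (hF : UnitFigure F) : F.Infinite := by
  intro hfin
  have := hfin.measure_zero volume
  rw [hF.area] at this
  exact one_ne_zero this

lemma S_set_nonempty {α : ℝ} (hα : 0 < α) {F : Set Plane} (hF : UnitFigure F) :
    {n : ℕ | 0 < n ∧ HasSmall α F n}.Nonempty := by
  obtain ⟨N, hN, h⟩ := exists_uniform hα
  exact ⟨N, hN, h F hF⟩

lemma hasSmall_S {α : ℝ} (hα : 0 < α) {F : Set Plane} (hF : UnitFigure F) :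
    HasSmall α F (S α F) :=
  (Nat.sInf_mem (S_set_nonempty hα hF)).2

lemma three_le_S {α : ℝ} (hα : 0 < α) {F : Set Plane} (hF : UnitFigure F) : 3 ≤ S α F := by
  by_contra h
  push Not at h
  exact not_hasSmall_lt_three hF.infinite h (hasSmall_S hα hF)

lemma S_le_iff {α : ℝ} (hα : 0 < α) {F : Set Plane} (hF : UnitFigure F) {n : ℕ} :
    S α F ≤ n ↔ HasSmall α F n := by
  constructor
  · intro h
    exact (hasSmall_S hα hF).mono h
  · intro h
    have hn : 0 < n := by
      by_contra h0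
      exact not_hasSmall_lt_three hF.infinite (by omega) h
    exact Nat.sInf_le ⟨hn, h⟩

lemma exists_unitFigure : ∃ F : Set Plane, UnitFigure F := by
  refine ⟨Icc (0:ℝ) 1 ×ˢ Icc (0:ℝ) 1, (convex_Icc 0 1).prod (convex_Icc 0 1),
    isCompact_Icc.prod isCompact_Icc, ?_, ?_⟩
  · rw [interior_prod_eq, interior_Icc]
    exact ⟨(1 / 2, 1 / 2), ⟨by norm_num, by norm_num⟩, ⟨by norm_num, by norm_num⟩⟩
  · rw [Measure.volume_eq_prod, Measure.prod_prod]
    simp

lemma values_nonempty (α : ℝ) : (values α).Nonempty := by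
  obtain ⟨F, hF⟩ := exists_unitFigure
  exact ⟨S α F, F, hF, rfl⟩

lemma values_bddAbove {α : ℝ} (hα : 0 < α) : BddAbove (values α) := by
  obtain ⟨N, _, h⟩ := exists_uniform hα
  refine ⟨N, ?_⟩
  rintro _ ⟨F, hF, rfl⟩
  exact (S_le_iff hα hF).2 (h F hF)

lemma m_isLeast (α : ℝ) : IsLeast (values α) (m α) :=
  ⟨Nat.sInf_mem (values_nonempty α), fun _ h => Nat.sInf_le h⟩

lemma M_isGreatest {α : ℝ} (hα : 0 < α) : IsGreatest (values α) (M α) :=
  ⟨Nat.sSup_mem (values_nonempty α) (values_bddAbove hα),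
    fun _ h => le_csSup (values_bddAbove hα) h⟩

/-- main step: an intermediate value is attained as soon as some figure has all its `k`-point
sets with a triangle of area less than `α` -/
lemma intermediate {α : ℝ} (hα : 0 < α) {k : ℕ} (hm : m α ≤ k) (hM : k ≤ M α)
    (h1 : ∃ F, UnitFigure F ∧ ¬ ∃ P : Fin k → Plane, (∀ i, P i ∈ F) ∧ Big α P) :
    ∃ F, UnitFigure F ∧ S α F = k := by
  obtain ⟨F0, hF0, hF0m⟩ := (m_isLeast α).1
  obtain ⟨F2, hF2, hF2M⟩ := (M_isGreatest hα).1
  rcases hm.eq_or_lt with h | hmk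
  · exact ⟨F0, hF0, by rw [hF0m, h]⟩
  rcases hM.eq_or_lt with h | hMk
  · exact ⟨F2, hF2, by rw [hF2M, h]⟩
  have hm3 : 3 ≤ m α := by rw [← hF0m]; exact three_le_S hα hF0
  obtain ⟨n, rfl⟩ : ∃ n, k = n + 1 := ⟨k - 1, by omega⟩
  have h2 : ∃ F, UnitFigure F ∧ ∃ P : Fin (n + 1) → Plane, (∀ i, P i ∈ F) ∧ SBig α P := by
    refine ⟨F2, hF2, exists_tuple_of_not_hasSmall fun h => ?_⟩
    have := (S_le_iff hα hF2).2 h
    omega
  obtain ⟨F, hF, ⟨Q, hQ, hQb⟩, hno⟩ := exists_gap hα (by omega) h1 h2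
  refine ⟨F, hF, le_antisymm ?_ ?_⟩
  · rw [S_le_iff hα hF]
    by_contra hcon
    exact hno (exists_tuple_of_not_hasSmall hcon)
  · by_contra hcon
    have hle : S α F ≤ n := by omega
    have hs := (S_le_iff hα hF).1 hle
    obtain ⟨i, j, l, hij, hjl, hil, h⟩ := hs.tuple hQ (hQb.big.injective (by omega) hα)
    exact absurd (hQb i j l hij hjl hil) (not_lt.2 h)

/-- For every `α` all integers between `m α` and `M α`, except possibly `m α + 1`, are values of
`S_α`; and `m α + 1` is also a value unless `m β ≥ m α + 2` for every `β < α`. -/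
theorem all_but_one {α : ℝ} (hα : 0 < α) {k : ℕ} (hm : m α ≤ k) (hM : k ≤ M α)
    (hk : k ≠ m α + 1) : ∃ F, UnitFigure F ∧ S α F = k := by
  obtain ⟨F0, hF0, hF0m⟩ := (m_isLeast α).1
  rcases hm.eq_or_lt with h | hmk
  · exact ⟨F0, hF0, by rw [hF0m, h]⟩
  have hm3 : 3 ≤ m α := by rw [← hF0m]; exact three_le_S hα hF0
  refine intermediate hα hm hM (exists_strict hα hF0 hm3 ?_ (by omega))
  exact (S_le_iff hα hF0).1 hF0m.le

theorem all_of_small_jump {α : ℝ} (hα : 0 < α) (hβ : ∃ β, 0 < β ∧ β < α ∧ m β ≤ m α + 1)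
    {k : ℕ} (hm : m α ≤ k) (hM : k ≤ M α) : ∃ F, UnitFigure F ∧ S α F = k := by
  obtain ⟨F0, hF0, hF0m⟩ := (m_isLeast α).1
  rcases hm.eq_or_lt with h | hmk
  · exact ⟨F0, hF0, by rw [hF0m, h]⟩
  have hm3 : 3 ≤ m α := by rw [← hF0m]; exact three_le_S hα hF0
  obtain ⟨β, hβ0, hβα, hβm⟩ := hβ
  obtain ⟨F1, hF1, hF1m⟩ := (m_isLeast β).1
  refine intermediate hα hm hM ⟨F1, hF1, ?_⟩
  rintro ⟨P, hP, hPb⟩
  have hs : HasSmall β F1 k := (S_le_iff hβ0 hF1).1 (by rw [hF1m]; omega)
  obtain ⟨i, j, l, hij, hjl, hil, h⟩ := hs.tuple hP (hPb.injective (by omega) hα)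
  have := hPb i j l hij hjl hil
  linarith

/-- Erdős' second question has a positive answer for all but countably many `α`; for the
remaining `α` the only value that may be missed is `m α + 1`. -/
theorem result :
    (∀ α : ℝ, 0 < α → α < 1 → ∀ k : ℕ, m α ≤ k → k ≤ M α → k ≠ m α + 1 →
      ∃ F, UnitFigure F ∧ S α F = k) ∧
    (∀ α : ℝ, 0 < α → α < 1 → (∃ β, 0 < β ∧ β < α ∧ m β ≤ m α + 1) →
      ∀ k : ℕ, m α ≤ k → k ≤ M α → ∃ F, UnitFigure F ∧ S α F = k) ∧
    {α : ℝ | 0 < α ∧ α < 1 ∧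
      ¬ ∀ k : ℕ, m α ≤ k → k ≤ M α → ∃ F, UnitFigure F ∧ S α F = k}.Countable := by
  refine ⟨fun α h0 _ k hm hM hk => all_but_one h0 hm hM hk,
    fun α h0 _ hβ k hm hM => all_of_small_jump h0 hβ hm hM, ?_⟩
  refine Set.MapsTo.countable_of_injOn (f := m) (t := (univ : Set ℕ)) (fun _ _ => mem_univ _) ?_
    (Set.countable_univ)
  have key : ∀ a b : ℝ, 0 < a → a < b →
      (¬ ∀ k : ℕ, m b ≤ k → k ≤ M b → ∃ F, UnitFigure F ∧ S b F = k) → m a ≠ m b := by
    intro a b ha hab hb heq
    exact hb fun k hm hM => all_of_small_jump (ha.trans hab) ⟨a, ha, hab, by omega⟩ hm hM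
  intro a ha b hb heq
  by_contra hne
  rcases lt_or_gt_of_ne hne with h | h
  · exact key a b ha.1 h hb.2.2 heq
  · exact key b a hb.1 h ha.2.2 heq.symm


end Pool.Agent.Results.MP_78c590_co.IntermediateValues
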